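import Pool.Agent.Q155.EB.Mean
import Pool.Agent.Q283.MC.Glo

/-!
# The Euler factors
-/

set_option autoImplicit false
set_option linter.unusedSectionVars false

open scoped Classical

namespace Q155.EB

open NumberField
open Q283.MC (tw aq_one aq_eq toC_w_three EL EL_bad)
open Pool.Agent.H82R3.EK (prime_cpow)
open Pool.Agent.Y692.QS (Ei w nr toC nr_star mul_star red red_zero)
open Pool.Agent.Y715.T.Rec (cs nn)
open Pool.Agent.Y715.T.RecG (Pq cs_spec cs_of cs_prod cs_pow cs_one)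
open Pool.Agent.Y703.CT (WD)
open Pool.Agent.Y696.CT (ap_cube cube_two tw_add cs_mul' exists_pq int_ndvd dvd_delta)

/-- the character of `ℤ/3` -/
noncomputable def ψ₀ (t : ZMod 3) : ℂ := toC w ^ t.val

theorem ch : Ch ψ₀ where
  zero := by
    unfold ψ₀
    rw [ZMod.val_zero, pow_zero]
  add s t := tw_add s t
  ne t ht := by
    have h2 : toC w ^ 2 + toC w + 1 = 0 := by
      rw [← map_pow, ← map_one toC, ← map_add, ← map_add]
      have : (w : Ei) ^ 2 + w + 1 = 0 := by decide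
      rw [this, map_zero]
    exact pv_ne h2 (by norm_num) ht

section
variable {k : ℕ} {l : Fin k → ℕ} {N : ℕ} {p : ℕ}

/-- the exponents that do not involve `p` -/
def Gd (p : ℕ) (l : Fin k → ℕ) (e : Fin k → ZMod 3) : Prop := ∀ j, p = l j → e j = 0

/-- the symbols -/
noncomputable def c0 (p : ℕ) (l : Fin k → ℕ) (π : Ei) (j : Fin k) : ZMod 3 :=
  if p = l j then 0 else cs π (l j : Ei)

theorem gd_dvd (hp : p.Prime) (hl : ∀ j, (l j).Prime) (hN : ¬ p ∣ N) (e : Fin k → ZMod 3) :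
    p ∣ tw N l e ↔ ¬ Gd p l e := by
  unfold tw Gd
  constructor
  · intro h hg
    rcases (Nat.Prime.dvd_mul hp).1 h with h | h
    · exact hN h
    · obtain ⟨j, -, h1⟩ := (hp.prime.dvd_finsetProd_iff _).1 h
      have h2 := (Nat.prime_dvd_prime_iff_eq hp (hl j)).1 (hp.dvd_of_dvd_pow h1)
      rw [hg j h2, ZMod.val_zero, pow_zero] at h1
      exact hp.one_lt.ne' (Nat.dvd_one.1 h1)
  · intro h
    push Not at h
    obtain ⟨j, hj, hej⟩ := h
    refine Dvd.dvd.mul_left ?_ _
    refine Dvd.dvd.trans ?_ (Finset.dvd_prod_of_mem _ (Finset.mem_univ j))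
    rw [← hj]
    exact dvd_pow_self p fun h0 => hej ((ZMod.val_eq_zero _).1 h0)

theorem cs_tw' (hp : p.Prime) (hl : ∀ j, (l j).Prime) {π : Ei} (hπ : Pq π) (hn : nr π = p)
    (hN : ¬ p ∣ N) {e : Fin k → ZMod 3} (hg : Gd p l e) :
    cs π ((tw N l e : ℕ) : Ei) = cs π (N : Ei) + pr e (c0 p l π) := by
  have : Fact p.Prime := ⟨hp⟩
  have hnd : ∀ a : ℕ, ¬ p ∣ a → ¬ π ∣ (a : Ei) := by
    intro a ha h
    refine int_ndvd (D := (a : ℤ)) hn (fun h' => ha (Int.natCast_dvd_natCast.1 h')) ?_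
    rwa [Int.cast_natCast]
  have h1 : ∀ j, ¬ π ∣ ((l j : Ei)) ^ (e j).val := by
    intro j h
    by_cases hj : p = l j
    · rw [hg j hj, ZMod.val_zero, pow_zero] at h
      exact hπ.prime.not_unit (isUnit_of_dvd_one h)
    · exact hnd _ (fun hd => hj ((Nat.prime_dvd_prime_iff_eq hp (hl j)).1 hd))
        (hπ.prime.dvd_of_dvd_pow h)
  unfold tw
  push_cast
  rw [cs_mul' hπ (hnd _ hN) (fun h => by
    obtain ⟨j, -, h2⟩ := (hπ.prime.dvd_finsetProd_iff _).1 h
    exact h1 j h2), cs_prod hπ.prime hπ.norm _ _ fun j _ => h1 j]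
  congr 1
  unfold pr
  refine Finset.sum_congr rfl fun j _ => ?_
  unfold c0
  by_cases hj : p = l j
  · rw [if_pos hj, hg j hj, ZMod.val_zero, pow_zero, cs_one hπ.prime hπ.norm, mul_zero]
  · rw [if_neg hj, cs_pow hπ.prime hπ.norm (hnd _ fun hd => hj
      ((Nat.prime_dvd_prime_iff_eq hp (hl j)).1 hd)), ZMod.natCast_zmod_val]

theorem prod_swap (m : (Fin k → ZMod 3) → ℕ) (hm : ∀ e, m (-e) = m e)
    (H : (Fin k → ZMod 3) → ℂ) : ∏ e, H (-e) ^ m e = ∏ e, H e ^ m e := by
  refine Fintype.prod_equiv (Equiv.neg _) _ _ fun e => ?_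
  rw [Equiv.neg_apply, hm]

/-- the rearrangement -/
theorem rearr (m : (Fin k → ZMod 3) → ℕ) (hm : ∀ e, m (-e) = m e) {c : Fin k → ZMod 3}
    (α β X : ℂ) {κ : ZMod 3} (hκ : κ ≠ 0) :
    ∏ e, (if Gd p l e then (1 - α * ψ₀ (-(κ * pr e c)) * X) * (1 - β * ψ₀ (-(κ * pr e c)) * X)
      else 1) ^ m e =
    ∏ e, (if Gd p l e then (1 - α * ψ₀ (-pr e c) * X) * (1 - β * ψ₀ (pr e c) * X) else 1) ^ m e := by
  have hg : ∀ e, Gd p l (-e) ↔ Gd p l e := by
    intro e
    unfold Gd
    refine forall_congr' fun j => ?_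
    rw [Pi.neg_apply, neg_eq_zero]
  set G : (Fin k → ZMod 3) → ℂ := fun e => if Gd p l e then 1 - α * ψ₀ (-pr e c) * X else 1 with hG
  set H : (Fin k → ZMod 3) → ℂ := fun e => if Gd p l e then 1 - β * ψ₀ (pr e c) * X else 1 with hH
  have hr : ∀ e, (if Gd p l e then (1 - α * ψ₀ (-pr e c) * X) * (1 - β * ψ₀ (pr e c) * X) else 1) =
      G e * H e := by
    intro e
    simp only [hG, hH]
    by_cases h : Gd p l e
    · rw [if_pos h, if_pos h, if_pos h]
    · rw [if_neg h, if_neg h, if_neg h, mul_one]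
  have hGn : ∀ e, G (-e) = if Gd p l e then 1 - α * ψ₀ (pr e c) * X else 1 := by
    intro e
    simp only [hG, hg, pr_neg_left, neg_neg]
  have hHn : ∀ e, H (-e) = if Gd p l e then 1 - β * ψ₀ (-pr e c) * X else 1 := by
    intro e
    simp only [hH, hg, pr_neg_left]
  simp only [hr, mul_pow, Finset.prod_mul_distrib]
  have hκ' : κ = 1 ∨ κ = 2 := by
    revert κ
    decide
  rcases hκ' with rfl | rfl
  · rw [← prod_swap m hm H, ← Finset.prod_mul_distrib]
    refine Finset.prod_congr rfl fun e _ => ?_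
    rw [← mul_pow, hHn]
    congr 1
    simp only [hG, one_mul]
    by_cases h : Gd p l e
    · rw [if_pos h, if_pos h, if_pos h]
    · rw [if_neg h, if_neg h, if_neg h, mul_one]
  · rw [← prod_swap m hm G, ← Finset.prod_mul_distrib]
    refine Finset.prod_congr rfl fun e _ => ?_
    rw [← mul_pow, hGn]
    congr 1
    have h2 : ∀ x : ZMod 3, -(2 * x) = x := by decide
    simp only [hH, h2]
    by_cases h : Gd p l e
    · rw [if_pos h, if_pos h, if_pos h]
    · rw [if_neg h, if_neg h, if_neg h, mul_one]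

end

section
variable {F : Type} [Field F] [NumberField F] {k : ℕ} {l : Fin k → ℕ} {i : F} {θ : Fin k → F}
variable {p : ℕ} {P : Ideal (𝓞 F)} {N : ℕ}
variable {V : Type} [AddCommGroup V] [Module ℂ V] [FiniteDimensional ℂ V]

/-- the Euler factor -/
noncomputable def ef (N : ℕ) (τ : Representation ℂ (F ≃ₐ[ℚ] F) V) (p : ℕ) (P : Ideal (𝓞 F))
    (s : ℂ) : ℂ :=
  if p ∣ 3 * N then 1 else
    (LinearMap.det (1 - (((Pool.Agent.W97.MT.ap (WD (N : ℤ)) p : ℤ) : ℂ) * (p : ℂ) ^ (-s)) •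
      mean τ p P + ((p : ℂ) ^ (1 - 2 * s)) • (mean τ p P * mean τ p P)))⁻¹

/-- the multiplicity of `e` in `τ` -/
noncomputable def mt (h : Fd F l i θ) (hl : ∀ j, (l j).Prime) (hinj : Function.Injective l)
    (τ : Representation ℂ (F ≃ₐ[ℚ] F) V) (e : Fin k → ZMod 3) : ℕ :=
  mu ψ₀ (fun u => τ (gu h hl hinj u)) e

theorem mt_neg (h : Fd F l i θ) (hl : ∀ j, (l j).Prime) (hinj : Function.Injective l)
    (τ : Representation ℂ (F ≃ₐ[ℚ] F) V) (e : Fin k → ZMod 3) :
    mt h hl hinj τ (-e) = mt h hl hinj τ e := by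
  obtain ⟨c, hc, hcu⟩ := conj_ex h hl hinj
  refine mu_neg (C := τ c) (C' := τ c) ?_ ?_ (fun u => ?_) e
  · rw [← map_mul, hc, map_one]
  · rw [← map_mul, hc, map_one]
  · rw [← map_mul, hcu, map_mul]

theorem sysT (h : Fd F l i θ) (hl : ∀ j, (l j).Prime) (hinj : Function.Injective l)
    (τ : Representation ℂ (F ≃ₐ[ℚ] F) V) :
    Sys (Fin k → ZMod 3) (PR ψ₀ fun u => τ (gu h hl hinj u)) :=
  sys_PR ch (by rw [gu_zero, map_one]) fun u v => by rw [gu_add, map_mul]

/-- **The Euler factor of a representation is a product of Euler factors of cubic twists.** -/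
theorem ef_eq (h : Fd F l i θ) (hl : ∀ j, (l j).Prime) (hl1 : ∀ j, l j % 3 = 1)
    (hinj : Function.Injective l) (τ : Representation ℂ (F ≃ₐ[ℚ] F) V) (hp : p.Prime)
    (hP : P.IsPrime) (hpP : (p : 𝓞 F) ∈ P) (s : ℂ) :
    ef N τ p P s = ∏ e, ((EL (tw N l e) s p)⁻¹) ^ mt h hl hinj τ e := by
  have hpf : Fact p.Prime := ⟨hp⟩
  unfold ef
  by_cases h3N : p ∣ 3 * N
  · rw [if_pos h3N]
    symm
    refine Finset.prod_eq_one fun e _ => ?_
    rw [EL_bad hp, inv_one, one_pow]
    rw [dvd_delta hp]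
    rcases (Nat.Prime.dvd_mul hp).1 h3N with h1 | h1
    · exact Or.inl ((Nat.prime_dvd_prime_iff_eq hp Nat.prime_three).1 h1)
    · exact Or.inr (Int.natCast_dvd_natCast.2 (Dvd.dvd.mul_right h1 _))
  rw [if_neg h3N]
  have hp3 : p ≠ 3 := fun h => h3N (h ▸ dvd_mul_right 3 N)
  have hN : ¬ p ∣ N := fun h => h3N (h.mul_left 3)
  have hm : p % 3 = 1 ∨ p % 3 = 2 := by
    have : p % 3 ≠ 0 := fun h => hp3
      ((Nat.prime_dvd_prime_iff_eq Nat.prime_three hp).1 (Nat.dvd_of_mod_eq_zero h)).symm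
    omega
  have hpow := prime_cpow p hp.ne_zero s
  set X : ℂ := (p : ℂ) ^ (-s) with hX
  rw [hpow]
  simp only [inv_pow]
  rw [Finset.prod_inv_distrib]
  congr 1
  rcases hm with hm | hm
  · -- split primes
    obtain ⟨π, hπ, hn⟩ := exists_pq hp hm
    have hpp2 : p ≠ 2 := by
      rintro rfl
      norm_num at hm
    obtain ⟨κ, hκ0, hκ⟩ := h.fr_iff hl hinj hp hm hP hpP hπ hn
    obtain ⟨a1, a2⟩ := aq_one hp hm hπ hn hN
    rw [aq_eq hpp2] at a1
    set α : ℂ := toC w ^ (-cs π (N : Ei)).val * toC π with hα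
    set β : ℂ := toC w ^ (cs π (N : Ei)).val * toC (star π) with hβ
    have a2' : (p : ℂ) = α * β := by
      rw [a2]
      push_cast
      rfl
    have hmean := fun e => mean_split τ h hl hinj ch hκ e
    have hB : ∀ e, (1 - (((Pool.Agent.W97.MT.ap (WD (N : ℤ)) p : ℤ) : ℂ) * X) •
        mean τ p P + ((p : ℂ) * X ^ 2) • (mean τ p P * mean τ p P)) *
        PR ψ₀ (fun u => τ (gu h hl hinj u)) e =
        (if Gd p l e then (1 - α * ψ₀ (-(κ * pr e (c0 p l π))) * X) *
          (1 - β * ψ₀ (-(κ * pr e (c0 p l π))) * X) else 1) •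
          PR ψ₀ (fun u => τ (gu h hl hinj u)) e := by
      intro e
      have h1 := hmean e
      set A := mean τ p P
      set Q := PR ψ₀ (fun u => τ (gu h hl hinj u)) e
      have hc : (fun j => if p = l j then 0 else κ * cs π (l j : Ei)) =
          fun j => κ * c0 p l π j := by
        funext j
        unfold c0
        by_cases hj : p = l j
        · rw [if_pos hj, if_pos hj, mul_zero]
        · rw [if_neg hj, if_neg hj]
      have hpr : pr e (fun j => κ * c0 p l π j) = κ * pr e (c0 p l π) := by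
        unfold pr
        rw [Finset.mul_sum]
        exact Finset.sum_congr rfl fun j _ => by ring
      rw [hc, hpr] at h1
      set y : ℂ := if ∀ j, p = l j → e j = 0 then ψ₀ (-(κ * pr e (c0 p l π))) else 0 with hy
      have h2 : (A * A) * Q = (y * y) • Q := by
        rw [mul_assoc, h1, mul_smul_comm, h1, smul_smul]
      rw [add_mul, sub_mul, one_mul, smul_mul_assoc, smul_mul_assoc, h1, h2, smul_smul, smul_smul,
        ← one_smul ℂ Q, smul_smul, smul_smul, ← sub_smul, ← add_smul, smul_smul, ← a1]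
      congr 1
      by_cases hg : Gd p l e
      · have hy' : y = ψ₀ (-(κ * pr e (c0 p l π))) := if_pos hg
        rw [if_pos hg, hy', a2']
        ring
      · have hy' : y = 0 := if_neg hg
        rw [if_neg hg, hy']
        ring
    rw [(sysT h hl hinj τ).det_of hB]
    refine (rearr (p := p) (l := l) _ (mt_neg h hl hinj τ) α β X hκ0).trans ?_
    refine Finset.prod_congr rfl fun e _ => ?_
    congr 1
    by_cases hg : Gd p l e
    · rw [if_pos hg]
      have hD : ¬ p ∣ tw N l e := by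
        rw [gd_dvd hp hl hN]
        exact not_not.2 hg
      obtain ⟨b1, b2⟩ := aq_one hp hm hπ hn hD
      rw [aq_eq hpp2, cs_tw' hp hl hπ hn hN hg, neg_add, tw_add, tw_add] at b1
      unfold EL
      rw [← b1, if_neg, hpow, ← hX, a2']
      · simp only [hα, hβ, ψ₀]
        have h3 := ch.neg (pr e (c0 p l π))
        simp only [ψ₀] at h3
        linear_combination (toC w ^ (-cs π (N : Ei)).val * toC π *
          (toC w ^ (cs π (N : Ei)).val * toC (star π))) * X ^ 2 * h3
      · rw [dvd_delta hp, not_or]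
        exact ⟨hp3, fun h' => hD (Int.natCast_dvd_natCast.1 h')⟩
    · rw [if_neg hg, EL_bad hp]
      rw [dvd_delta hp]
      refine Or.inr (Int.natCast_dvd_natCast.2 ?_)
      rw [gd_dvd hp hl hN]
      exact hg
  · -- inert primes
    have hpl : ∀ j, ¬ p ∣ l j := by
      intro j hd
      have h1 := (Nat.prime_dvd_prime_iff_eq hp (hl j)).1 hd
      have h2 := hl1 j
      rw [← h1] at h2
      omega
    have hg : ∀ e, Gd p l e := fun e j hj => absurd (hj ▸ dvd_refl p) (hpl j)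
    rw [ap_cube (cube_two hm), Int.cast_zero, zero_mul, zero_smul, sub_zero,
      mean_inert τ h hp hm hP hpP hpl]
    rw [(sysT h hl hinj τ).det_of (B := 1 + ((p : ℂ) * X ^ 2) • (1 : V →ₗ[ℂ] V))
      (β := fun _ => 1 + (p : ℂ) * X ^ 2) fun e => by
        rw [add_mul, one_mul, smul_mul_assoc, one_mul, add_smul, one_smul]]
    refine Finset.prod_congr rfl fun e _ => ?_
    unfold mt mu
    congr 1
    unfold EL
    rw [ap_cube (cube_two hm), Int.cast_zero, zero_mul, sub_zero, if_neg, hpow]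
    rw [dvd_delta hp, not_or]
    refine ⟨hp3, fun h' => ?_⟩
    exact (gd_dvd hp hl hN e).1 (Int.natCast_dvd_natCast.1 h') (hg e)

end

end Q155.EB
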