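import Pool.Agent.Q155.EB.Grp
import Pool.Agent.Q283.MC.Loc

/-!
# The Frobenius elements of `ℚ(ω, ∛l_1, …, ∛l_k)`
-/

set_option autoImplicit false
set_option linter.unusedSectionVars false

open scoped Classical

namespace Q155.EB

open NumberField
open Pool.Agent.Y692.QS (Ei w nr toC nr_star mul_star red red_zero)
open Pool.Agent.Y715.T.Rec (cs nn)
open Pool.Agent.Y715.T.RecG (Pq cs_spec cs_of cs_prod cs_pow)
open Pool.Agent.Y696.CT (exists_pq int_ndvd cs_mul')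

section
variable {F : Type} [Field F] [NumberField F] {k : ℕ} {l : Fin k → ℕ} {i : F} {θ : Fin k → F}

/-- `g` is a Frobenius element at `P` -/
def IsFr (p : ℕ) (P : Ideal (𝓞 F)) (g : F ≃ₐ[ℚ] F) : Prop :=
  ∀ x : 𝓞 F, g • x - x ^ p ∈ P

theorem co_smul (g : F ≃ₐ[ℚ] F) (x : 𝓞 F) :
    algebraMap (𝓞 F) F (g • x) = g (algebraMap (𝓞 F) F x) := rfl

theorem coe_inj' {x y : 𝓞 F} (h : algebraMap (𝓞 F) F x = algebraMap (𝓞 F) F y) : x = y :=
  RingOfIntegers.coe_injective h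

theorem Fd.int_i (h : Fd F l i θ) : ∃ I : 𝓞 F, algebraMap (𝓞 F) F I = i :=
  ⟨⟨i, IsIntegral.of_pow (n := 3) (by norm_num) (by rw [h.i3]; exact isIntegral_one)⟩, rfl⟩

theorem Fd.int_θ (h : Fd F l i θ) (j : Fin k) : ∃ I : 𝓞 F, algebraMap (𝓞 F) F I = θ j :=
  ⟨⟨θ j, IsIntegral.of_pow (n := 3) (by norm_num) (by
    rw [h.cube]
    have := isIntegral_algebraMap (R := ℤ) (A := F) (x := ((l j : ℕ) : ℤ))
    simpa using this)⟩, rfl⟩

theorem Fd.I2 (h : Fd F l i θ) {I : 𝓞 F} (hI : algebraMap (𝓞 F) F I = i) : I ^ 2 + I + 1 = 0 := by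
  apply coe_inj'
  rw [map_add, map_add, map_pow, hI, map_one, map_zero, h.root]

theorem Fd.Θ3 (h : Fd F l i θ) {j : Fin k} {Θ : 𝓞 F} (hΘ : algebraMap (𝓞 F) F Θ = θ j) :
    Θ ^ 3 = ((l j : ℕ) : 𝓞 F) := by
  apply coe_inj'
  rw [map_pow, hΘ, h.cube, map_natCast]

theorem act_I {I : 𝓞 F} (hI : algebraMap (𝓞 F) F I = i) {g : F ≃ₐ[ℚ] F} {n : ℕ}
    (hg : g i = i ^ n) : g • I = I ^ n := by
  apply coe_inj'
  rw [co_smul, hI, hg, map_pow, hI]

theorem act_Θ {I Θ : 𝓞 F} {t : F} (hI : algebraMap (𝓞 F) F I = i)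
    (hΘ : algebraMap (𝓞 F) F Θ = t) {g : F ≃ₐ[ℚ] F} {n : ℕ}
    (hg : g t = i ^ n * t) : g • Θ = I ^ n * Θ := by
  apply coe_inj'
  rw [co_smul, hΘ, hg, map_mul, map_pow, hI, hΘ]

variable {p : ℕ} {P : Ideal (𝓞 F)}

theorem nat_ne (hp : p.Prime) (hP : P.IsPrime) (hpP : (p : 𝓞 F) ∈ P) {n : ℕ} (hn : ¬ p ∣ n) :
    ((n : ℕ) : 𝓞 F ⧸ P) ≠ 0 := by
  intro h0
  have h1 : (n : 𝓞 F) ∈ P := by
    rw [← Ideal.Quotient.eq_zero_iff_mem, map_natCast]
    exact h0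
  have h2 : IsCoprime (p : ℤ) (n : ℤ) :=
    Nat.isCoprime_iff_coprime.2 ((Nat.Prime.coprime_iff_not_dvd hp).2 hn)
  obtain ⟨a, b, hab⟩ := h2
  apply hP.ne_top
  rw [Ideal.eq_top_iff_one]
  have h3 : (1 : 𝓞 F) = (a : 𝓞 F) * p + b * n := by
    have := congrArg (fun z : ℤ => (z : 𝓞 F)) hab
    push_cast at this
    exact this.symm
  rw [h3]
  exact P.add_mem (P.mul_mem_left _ hpP) (P.mul_mem_left _ h1)

theorem three_ne (hp : p.Prime) (hp3 : p ≠ 3) (hP : P.IsPrime) (hpP : (p : 𝓞 F) ∈ P) :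
    (3 : 𝓞 F ⧸ P) ≠ 0 := by
  have := nat_ne hp hP hpP (n := 3) (fun h => hp3 ((Nat.prime_dvd_prime_iff_eq hp Nat.prime_three).1 h))
  exact_mod_cast this

theorem root_cases' {R : Type} [CommRing R] [IsDomain R] {x y : R} (hx : x ^ 2 + x + 1 = 0)
    (hy : y ^ 2 + y + 1 = 0) : x = y ∨ x = y ^ 2 := by
  have h1 : (x - y) * (x - y ^ 2) = 0 := by
    linear_combination hx - x * hy + cube_one hy
  rcases mul_eq_zero.1 h1 with h2 | h2
  · exact Or.inl (sub_eq_zero.1 h2)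
  · exact Or.inr (sub_eq_zero.1 h2)

/-- the action of a Frobenius element on the root of unity -/
theorem Fd.fr_i (h : Fd F l i θ) (hp : p.Prime) (hp3 : p ≠ 3) (hP : P.IsPrime)
    (hpP : (p : 𝓞 F) ∈ P) {g : F ≃ₐ[ℚ] F} (hg : IsFr p P g) : g i = i ^ ((p : ℕ) : ZMod 3).val := by
  obtain ⟨I, hI⟩ := h.int_i
  obtain ⟨c, hc⟩ := h.cube_cases (x := g i) (y := 1) (by rw [← map_pow, h.i3, map_one, one_pow])
  rw [mul_one] at hc
  have h1 : g • I = I ^ c.val := act_I hI hc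
  have h2 := hg I
  rw [h1, ← Ideal.Quotient.eq_zero_iff_mem, map_sub, map_pow, map_pow, sub_eq_zero] at h2
  have hI2 : I ^ 2 + I + 1 = 0 := h.I2 hI
  have hq : (Ideal.Quotient.mk P I) ^ 2 + Ideal.Quotient.mk P I + 1 = 0 := by
    rw [← map_pow, ← map_add, ← map_one (Ideal.Quotient.mk P), ← map_add, hI2, map_zero]
  have h3 : (Ideal.Quotient.mk P I) ^ p = (Ideal.Quotient.mk P I) ^ ((p : ℕ) : ZMod 3).val := by
    rw [ZMod.val_natCast]
    exact pow_eq_pow_mod _ (cube_one hq)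
  rw [h3] at h2
  rw [hc, pv_inj hq (three_ne hp hp3 hP hpP) h2]

/-- the action of a Frobenius element on a cube root, split primes -/
theorem Fd.fr_θ (h : Fd F l i θ) (hp : p.Prime) (hm : p % 3 = 1) (hP : P.IsPrime)
    (hpP : (p : 𝓞 F) ∈ P) {g : F ≃ₐ[ℚ] F} (hg : IsFr p P g) {j : Fin k} (hj : ¬ p ∣ l j)
    {I : 𝓞 F} (hI : algebraMap (𝓞 F) F I = i) {c : ZMod 3} (hc : g (θ j) = i ^ c.val * θ j) :
    (Ideal.Quotient.mk P I) ^ c.val = ((l j : ℕ) : 𝓞 F ⧸ P) ^ ((p - 1) / 3) := by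
  obtain ⟨Θ, hΘ⟩ := h.int_θ j
  have h1 : g • Θ = I ^ c.val * Θ := act_Θ hI hΘ hc
  have h2 := hg Θ
  rw [h1, ← Ideal.Quotient.eq_zero_iff_mem, map_sub, map_mul, map_pow, map_pow, sub_eq_zero] at h2
  have hΘ3 : Θ ^ 3 = ((l j : ℕ) : 𝓞 F) := h.Θ3 hΘ
  have hq3 : (Ideal.Quotient.mk P Θ) ^ 3 = ((l j : ℕ) : 𝓞 F ⧸ P) := by
    rw [← map_pow, hΘ3, map_natCast]
  have hq0 : Ideal.Quotient.mk P Θ ≠ 0 := by
    intro h0
    rw [h0, zero_pow (by norm_num)] at hq3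
    exact nat_ne hp hP hpP hj hq3.symm
  obtain ⟨m, hm'⟩ : ∃ m, p = 3 * m + 1 := ⟨p / 3, by omega⟩
  have hm2 : (p - 1) / 3 = m := by omega
  rw [hm2, ← hq3, ← pow_mul]
  apply mul_right_cancel₀ hq0
  rw [h2, ← pow_succ]
  congr 1

/-- the root of unity modulo `P` and modulo `π` -/
theorem Fd.kappa (h : Fd F l i θ) (hp : p.Prime) (hm : p % 3 = 1) (hP : P.IsPrime)
    (hpP : (p : 𝓞 F) ∈ P) {I : 𝓞 F} (hI : algebraMap (𝓞 F) F I = i) {π : Ei} (hπ : Pq π) (hn : nr π = p) :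
    ∃ κ : ZMod 3, κ ≠ 0 ∧ ∀ a : ℕ, ¬ p ∣ a →
      ((a : ℕ) : 𝓞 F ⧸ P) ^ ((p - 1) / 3) = (Ideal.Quotient.mk P I) ^ (κ * cs π (a : Ei)).val := by
  have hpf : Fact p.Prime := ⟨hp⟩
  have hp3 : p ≠ 3 := by
    rintro rfl
    norm_num at hm
  have hI2 : I ^ 2 + I + 1 = 0 := h.I2 hI
  have hq : (Ideal.Quotient.mk P I) ^ 2 + Ideal.Quotient.mk P I + 1 = 0 := by
    rw [← map_pow, ← map_add, ← map_one (Ideal.Quotient.mk P), ← map_add, hI2, map_zero]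
  have hchar : CharP (𝓞 F ⧸ P) p := by
    have h0 : ((p : ℕ) : 𝓞 F ⧸ P) = 0 := by
      rw [← map_natCast (Ideal.Quotient.mk P)]
      exact Ideal.Quotient.eq_zero_iff_mem.2 hpP
    have : ringChar (𝓞 F ⧸ P) = p := CharP.ringChar_of_prime_eq_zero hp h0
    rw [← this]
    infer_instance
  set ι : ZMod p →+* 𝓞 F ⧸ P := ZMod.castHom (dvd_refl p) _ with hι
  have hz : (ι (red hn w)) ^ 2 + ι (red hn w) + 1 = 0 := by
    have h1 : (w : Ei) ^ 2 + w + 1 = 0 := by decide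
    rw [← map_pow, ← map_pow, ← map_add, ← map_add, ← map_one ι, ← map_one (red hn), ← map_add,
      ← map_add, h1, map_zero, map_zero]
  have hκ : ∃ κ : ZMod 3, κ ≠ 0 ∧ ι (red hn w) = (Ideal.Quotient.mk P I) ^ κ.val := by
    rcases root_cases' hz hq with h1 | h1
    · exact ⟨1, by decide, by rw [show (1 : ZMod 3).val = 1 from rfl, pow_one]; exact h1⟩
    · exact ⟨2, by decide, by rw [show (2 : ZMod 3).val = 2 from rfl]; exact h1⟩
  obtain ⟨κ, hκ0, hκ⟩ := hκ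
  refine ⟨κ, hκ0, fun a ha => ?_⟩
  have hnd : ¬ π ∣ (a : Ei) := by
    intro h
    refine int_ndvd (D := (a : ℤ)) hn (fun h' => ha (Int.natCast_dvd_natCast.1 h')) ?_
    rwa [Int.cast_natCast]
  have hnn : nn π = (p - 1) / 3 := by
    unfold nn
    rw [hn, Int.natAbs_natCast]
  have h1 := cs_spec hπ.prime hπ.norm hnd
  rw [← red_zero hn, map_sub, map_pow, map_pow, map_natCast, hnn, sub_eq_zero] at h1
  have h2 := congrArg ι h1
  rw [map_pow, map_pow, map_natCast, hκ] at h2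
  rw [h2, pv_pow (cube_one hq)]
  congr 2
  rw [ZMod.natCast_zmod_val, mul_comm]

/-- the Frobenius elements in the split case are of a prescribed type -/
theorem Fd.fr_type (h : Fd F l i θ) (hp : p.Prime) (hm : p % 3 = 1) (hP : P.IsPrime)
    (hpP : (p : 𝓞 F) ∈ P) {π : Ei} (hπ : Pq π) (hn : nr π = p) :
    ∃ κ : ZMod 3, κ ≠ 0 ∧ ∀ g : F ≃ₐ[ℚ] F, IsFr p P g → g i = i ∧ ∀ (j : Fin k), ¬ p ∣ l j →
      g (θ j) = i ^ (κ * cs π (l j : Ei)).val * θ j := by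
  have hp3 : p ≠ 3 := by
    rintro rfl
    norm_num at hm
  obtain ⟨I, hI⟩ := h.int_i
  have hI2 : I ^ 2 + I + 1 = 0 := h.I2 hI
  have hq : (Ideal.Quotient.mk P I) ^ 2 + Ideal.Quotient.mk P I + 1 = 0 := by
    rw [← map_pow, ← map_add, ← map_one (Ideal.Quotient.mk P), ← map_add, hI2, map_zero]
  obtain ⟨κ, hκ0, hκ⟩ := h.kappa hp hm hP hpP hI hπ hn
  refine ⟨κ, hκ0, fun g hg => ⟨?_, fun j hj => ?_⟩⟩
  · have h1 := h.fr_i hp hp3 hP hpP hg
    rw [ZMod.val_natCast, hm, pow_one] at h1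
    exact h1
  · obtain ⟨c, hc⟩ := h.map_cube g j
    have h1 := h.fr_θ hp hm hP hpP hg hj hI hc
    rw [hκ _ hj] at h1
    rw [hc, pv_inj hq (three_ne hp hp3 hP hpP) h1]

/-- inert primes: the Frobenius elements are involutions, and there is only one -/
theorem Fd.fr_inert (h : Fd F l i θ) (hp : p.Prime) (hm : p % 3 = 2) (hP : P.IsPrime)
    (hpP : (p : 𝓞 F) ∈ P) (hl : ∀ j, ¬ p ∣ l j) {g : F ≃ₐ[ℚ] F} (hg : IsFr p P g) :
    g * g = 1 ∧ ∀ g', IsFr p P g' → g' = g := by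
  have hp3 : p ≠ 3 := by
    rintro rfl
    norm_num at hm
  have hgi : ∀ g, IsFr p P g → g i = i ^ 2 := by
    intro g hg
    have h1 := h.fr_i hp hp3 hP hpP hg
    rwa [ZMod.val_natCast, hm] at h1
  have h4 : (i ^ 2) ^ 2 = i := by linear_combination i * h.i3
  constructor
  · apply h.ext
    · show g (g i) = i
      rw [hgi g hg, map_pow, hgi g hg, h4]
    · intro j
      show g (g (θ j)) = θ j
      obtain ⟨c, hc⟩ := h.map_cube g j
      rw [hc, map_mul, map_pow, hgi g hg, hc, ← mul_assoc, ← pow_mul, ← pow_add]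
      have : i ^ (2 * c.val + c.val) = 1 := by
        rw [show 2 * c.val + c.val = 3 * c.val by ring, pow_mul, h.i3, one_pow]
      rw [this, one_mul]
  · intro g' hg'
    apply h.ext
    · rw [hgi g hg, hgi g' hg']
    · intro j
      obtain ⟨I, hI⟩ := h.int_i
      obtain ⟨Θ, hΘ⟩ := h.int_θ j
      obtain ⟨c, hc⟩ := h.map_cube g j
      obtain ⟨c', hc'⟩ := h.map_cube g' j
      have hI2 : I ^ 2 + I + 1 = 0 := h.I2 hI
      have hq : (Ideal.Quotient.mk P I) ^ 2 + Ideal.Quotient.mk P I + 1 = 0 := by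
        rw [← map_pow, ← map_add, ← map_one (Ideal.Quotient.mk P), ← map_add, hI2, map_zero]
      have h1 : g • Θ = I ^ c.val * Θ := act_Θ hI hΘ hc
      have h1' : g' • Θ = I ^ c'.val * Θ := act_Θ hI hΘ hc'
      have h2 := hg Θ
      have h2' := hg' Θ
      rw [h1, ← Ideal.Quotient.eq_zero_iff_mem, map_sub, map_mul, map_pow, map_pow, sub_eq_zero] at h2
      rw [h1', ← Ideal.Quotient.eq_zero_iff_mem, map_sub, map_mul, map_pow, map_pow,
        sub_eq_zero] at h2'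
      have hΘ3 : Θ ^ 3 = ((l j : ℕ) : 𝓞 F) := h.Θ3 hΘ
      have hq3 : (Ideal.Quotient.mk P Θ) ^ 3 = ((l j : ℕ) : 𝓞 F ⧸ P) := by
        rw [← map_pow, hΘ3, map_natCast]
      have hq0 : Ideal.Quotient.mk P Θ ≠ 0 := by
        intro h0
        rw [h0, zero_pow (by norm_num)] at hq3
        exact nat_ne hp hP hpP (hl j) hq3.symm
      rw [hc, hc', pv_inj hq (three_ne hp hp3 hP hpP) (mul_right_cancel₀ hq0 (h2.trans h2'.symm))]

end

end Q155.EB
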