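import Mathlib

/-!
# Determinants of operators that are scalar on the isotypic components of `(ℤ/3)^k`
-/

set_option autoImplicit false

open scoped Classical

namespace Q155.EB

open Module

section
variable {V : Type} [AddCommGroup V] [Module ℂ V] [FiniteDimensional ℂ V]

theorem det_proj {P : V →ₗ[ℂ] V} (hP : P * P = P) (c : ℂ) :
    LinearMap.det (1 + c • P) = (1 + c) ^ finrank ℂ (LinearMap.range P) := by
  set W := LinearMap.range P with hW
  set e : V →ₗ[ℂ] V := 1 + c • P with he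
  have hfix : ∀ v ∈ W, P v = v := by
    rintro v ⟨w, rfl⟩
    exact LinearMap.congr_fun hP w
  have heW : W ≤ W.comap e := by
    intro v hv
    rw [Submodule.mem_comap]
    show v + c • P v ∈ W
    exact W.add_mem hv (W.smul_mem _ ⟨v, rfl⟩)
  rw [LinearMap.det_eq_det_mul_det W e heW]
  have h1 : W.mapQ W e heW = 1 := by
    refine Submodule.linearMap_qext _ ?_
    ext v
    show Submodule.Quotient.mk (e v) = Submodule.Quotient.mk v
    rw [Submodule.Quotient.eq]
    show v + c • P v - v ∈ W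
    rw [add_sub_cancel_left]
    exact W.smul_mem _ ⟨v, rfl⟩
  have h2 : e.restrict heW = (1 + c) • (1 : W →ₗ[ℂ] W) := by
    ext v
    show (v : V) + c • P v = (1 + c) • (v : V)
    rw [hfix v v.2, add_smul, one_smul]
  rw [h1, h2, LinearMap.det_smul]
  simp

/-- a complete system of orthogonal projections -/
structure Sys (ι : Type) [Fintype ι] (P : ι → V →ₗ[ℂ] V) : Prop where
  idem : ∀ e, P e * P e = P e
  orth : ∀ e f, e ≠ f → P e * P f = 0
  sum : ∑ e, P e = 1

variable {ι : Type} [Fintype ι] {P : ι → V →ₗ[ℂ] V}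

theorem Sys.det_sum (h : Sys ι P) (γ : ι → ℂ) (s : Finset ι) :
    LinearMap.det (1 + ∑ e ∈ s, γ e • P e) =
      ∏ e ∈ s, (1 + γ e) ^ finrank ℂ (LinearMap.range (P e)) := by
  induction s using Finset.induction_on with
  | empty => simp
  | insert a s ha ih =>
    have h1 : (1 : V →ₗ[ℂ] V) + ∑ e ∈ insert a s, γ e • P e =
        (1 + γ a • P a) * (1 + ∑ e ∈ s, γ e • P e) := by
      have h2 : P a * ∑ e ∈ s, γ e • P e = 0 := by
        rw [Finset.mul_sum]
        refine Finset.sum_eq_zero fun e he => ?_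
        rw [mul_smul_comm, h.orth a e (fun hae => ha (hae ▸ he)), smul_zero]
      rw [Finset.sum_insert ha, mul_add, mul_one, add_mul, one_mul, smul_mul_assoc, h2, smul_zero,
        add_zero]
      abel
    rw [h1, map_mul, ih, det_proj (h.idem a), Finset.prod_insert ha]

theorem Sys.det_of (h : Sys ι P) {B : V →ₗ[ℂ] V} {β : ι → ℂ} (hB : ∀ e, B * P e = β e • P e) :
    LinearMap.det B = ∏ e, β e ^ finrank ℂ (LinearMap.range (P e)) := by
  have h1 : B = 1 + ∑ e, (β e - 1) • P e := by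
    have h2 : B = ∑ e, β e • P e := by
      rw [← mul_one B, ← h.sum, Finset.mul_sum]
      exact Finset.sum_congr rfl fun e _ => hB e
    rw [h2]
    conv_rhs => rw [← h.sum]
    rw [← Finset.sum_add_distrib]
    refine Finset.sum_congr rfl fun e _ => ?_
    rw [sub_smul, one_smul]
    abel
  rw [h1, h.det_sum]
  refine Finset.prod_congr rfl fun e _ => ?_
  rw [add_sub_cancel]

end

/-! ## characters of `(ℤ/3)^k` -/

section
variable {k : ℕ}

/-- the pairing -/
def pr (e u : Fin k → ZMod 3) : ZMod 3 := ∑ j, e j * u j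

theorem pr_add (e u v : Fin k → ZMod 3) : pr e (u + v) = pr e u + pr e v := by
  unfold pr
  rw [← Finset.sum_add_distrib]
  exact Finset.sum_congr rfl fun j _ => by rw [Pi.add_apply, mul_add]

theorem pr_comm (e u : Fin k → ZMod 3) : pr e u = pr u e := by
  unfold pr
  exact Finset.sum_congr rfl fun j _ => mul_comm _ _

theorem pr_neg (e u : Fin k → ZMod 3) : pr e (-u) = -pr e u := by
  unfold pr
  rw [← Finset.sum_neg_distrib]
  exact Finset.sum_congr rfl fun j _ => by rw [Pi.neg_apply, mul_neg]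

theorem pr_neg_left (e u : Fin k → ZMod 3) : pr (-e) u = -pr e u := by
  rw [pr_comm, pr_neg, pr_comm]

theorem pr_zero (e : Fin k → ZMod 3) : pr e 0 = 0 := by
  unfold pr
  simp

theorem pr_single (e : Fin k → ZMod 3) (j : Fin k) (t : ZMod 3) :
    pr e (Pi.single j t) = e j * t := by
  unfold pr
  rw [Finset.sum_eq_single j, Pi.single_eq_same]
  · intro i _ hij
    rw [Pi.single_eq_of_ne hij, mul_zero]
  · intro h
    exact absurd (Finset.mem_univ _) h

/-- a nontrivial character of `ℤ/3` -/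
structure Ch (ψ : ZMod 3 → ℂ) : Prop where
  zero : ψ 0 = 1
  add : ∀ s t, ψ (s + t) = ψ s * ψ t
  ne : ∀ t, t ≠ 0 → ψ t ≠ 1

variable {ψ : ZMod 3 → ℂ}

theorem Ch.neg (h : Ch ψ) (t : ZMod 3) : ψ (-t) * ψ t = 1 := by
  rw [← h.add, neg_add_cancel, h.zero]

theorem Ch.orth (h : Ch ψ) (e : Fin k → ZMod 3) (he : e ≠ 0) :
    ∑ u : Fin k → ZMod 3, ψ (pr e u) = 0 := by
  obtain ⟨j, hj⟩ : ∃ j, e j ≠ 0 := by
    by_contra hcon
    push Not at hcon
    exact he (funext hcon)
  have h1 : ∑ u : Fin k → ZMod 3, ψ (pr e u) = ψ (e j) * ∑ u : Fin k → ZMod 3, ψ (pr e u) := by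
    rw [Finset.mul_sum]
    refine (Fintype.sum_equiv (Equiv.addLeft (Pi.single j (1 : ZMod 3))) _ _ fun u => ?_).symm
    rw [Equiv.coe_addLeft, pr_add, h.add, pr_single, mul_one]
  have h2 : (1 - ψ (e j)) * ∑ u : Fin k → ZMod 3, ψ (pr e u) = 0 := by linear_combination h1
  rcases mul_eq_zero.1 h2 with h3 | h3
  · exact absurd (sub_eq_zero.1 h3).symm (h.ne _ hj)
  · exact h3

theorem Ch.orth_zero (h : Ch ψ) : ∑ u : Fin k → ZMod 3, ψ (pr 0 u) = 3 ^ k := by
  have : ∀ u : Fin k → ZMod 3, ψ (pr 0 u) = 1 := fun u => by rw [pr_comm, pr_zero, h.zero]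
  rw [Finset.sum_congr rfl fun u _ => this u, Finset.sum_const, Finset.card_univ,
    Fintype.card_fun, ZMod.card, Fintype.card_fin]
  simp

end

section
variable {V : Type} [AddCommGroup V] [Module ℂ V]
variable {k : ℕ} {ψ : ZMod 3 → ℂ} {T : (Fin k → ZMod 3) → V →ₗ[ℂ] V}

/-- the projection to the component of `e` -/
noncomputable def PR (ψ : ZMod 3 → ℂ) (T : (Fin k → ZMod 3) → V →ₗ[ℂ] V) (e : Fin k → ZMod 3) :
    V →ₗ[ℂ] V := ((3 : ℂ) ^ k)⁻¹ • ∑ u, ψ (-pr e u) • T u

theorem T_PR (h : Ch ψ) (hT : ∀ u v, T (u + v) = T u * T v) (e v : Fin k → ZMod 3) :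
    T v * PR ψ T e = ψ (pr e v) • PR ψ T e := by
  unfold PR
  rw [mul_smul_comm, smul_comm (ψ (pr e v)), Finset.mul_sum]
  refine congrArg (fun x : V →ₗ[ℂ] V => ((3 : ℂ) ^ k)⁻¹ • x) ?_
  rw [Finset.smul_sum]
  refine Fintype.sum_equiv (Equiv.addLeft v) _ _ fun u => ?_
  rw [mul_smul_comm, ← hT, smul_smul, Equiv.coe_addLeft]
  congr 1
  rw [pr_add, neg_add, h.add, ← mul_assoc, mul_comm (ψ (pr e v)), h.neg, one_mul]

theorem PR_PR (h : Ch ψ) (hT : ∀ u v, T (u + v) = T u * T v) (e f : Fin k → ZMod 3) :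
    PR ψ T e * PR ψ T f = if e = f then PR ψ T f else 0 := by
  have h1 : PR ψ T e * PR ψ T f = (((3 : ℂ) ^ k)⁻¹ * ∑ u, ψ (pr (f - e) u)) • PR ψ T f := by
    conv_lhs => rw [PR]
    rw [smul_mul_assoc, Finset.sum_mul, mul_smul]
    congr 1
    rw [Finset.sum_smul]
    refine Finset.sum_congr rfl fun u _ => ?_
    rw [smul_mul_assoc, T_PR h hT, smul_smul, ← h.add]
    congr 2
    rw [sub_eq_add_neg, pr_comm (f + -e), pr_add, pr_comm u f, pr_neg, pr_comm u e, add_comm]
  rw [h1]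
  by_cases hef : e = f
  · rw [if_pos hef, hef, sub_self, h.orth_zero, inv_mul_cancel₀ (pow_ne_zero _ (by norm_num)),
      one_smul]
  · rw [if_neg hef, h.orth _ (sub_ne_zero.2 fun h => hef h.symm), mul_zero, zero_smul]

theorem PR_sum (h : Ch ψ) (hT0 : T 0 = 1) : ∑ e, PR ψ T e = 1 := by
  unfold PR
  rw [← Finset.smul_sum, Finset.sum_comm]
  have h1 : ∀ u : Fin k → ZMod 3, ∑ e, ψ (-pr e u) • T u = if u = 0 then ((3 : ℂ) ^ k) • 1 else 0 := by
    intro u
    rw [← Finset.sum_smul]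
    by_cases hu : u = 0
    · rw [if_pos hu, hu, hT0]
      congr 1
      rw [← h.orth_zero]
      refine Finset.sum_congr rfl fun e _ => ?_
      rw [pr_zero, pr_comm, pr_zero, neg_zero]
    · rw [if_neg hu]
      have h2 : ∑ e : Fin k → ZMod 3, ψ (-pr e u) = 0 := by
        rw [← h.orth (-u) (neg_ne_zero.2 hu)]
        refine Finset.sum_congr rfl fun e _ => ?_
        rw [pr_comm (-u), pr_neg]
      rw [h2, zero_smul]
  rw [Finset.sum_congr rfl fun u _ => h1 u, Finset.sum_ite_eq' Finset.univ (0 : Fin k → ZMod 3),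
    if_pos (Finset.mem_univ _), smul_smul, inv_mul_cancel₀ (pow_ne_zero _ (by norm_num)), one_smul]

variable [FiniteDimensional ℂ V]

theorem sys_PR (h : Ch ψ) (hT0 : T 0 = 1) (hT : ∀ u v, T (u + v) = T u * T v) :
    Sys (Fin k → ZMod 3) (PR ψ T) where
  idem e := by rw [PR_PR h hT, if_pos rfl]
  orth e f hef := by rw [PR_PR h hT, if_neg hef]
  sum := PR_sum h hT0

/-- the multiplicity -/
noncomputable def mu (ψ : ZMod 3 → ℂ) (T : (Fin k → ZMod 3) → V →ₗ[ℂ] V) (e : Fin k → ZMod 3) : ℕ :=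
  finrank ℂ (LinearMap.range (PR ψ T e))

/-- the symmetry of the multiplicities -/
theorem mu_neg {C C' : V →ₗ[ℂ] V} (hC : C' * C = 1) (hC' : C * C' = 1)
    (hCT : ∀ u, C * T u = T (-u) * C) (e : Fin k → ZMod 3) : mu ψ T (-e) = mu ψ T e := by
  have h1 : C * PR ψ T e = PR ψ T (-e) * C := by
    unfold PR
    rw [mul_smul_comm, smul_mul_assoc, Finset.mul_sum, Finset.sum_mul]
    congr 1
    refine Fintype.sum_equiv (Equiv.neg _) _ _ fun u => ?_
    rw [mul_smul_comm, smul_mul_assoc, Equiv.neg_apply, pr_neg, pr_neg_left, neg_neg, hCT]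
  let E : V ≃ₗ[ℂ] V := LinearEquiv.ofLinear C C' hC' hC
  have h2 : LinearMap.range (PR ψ T (-e)) = (LinearMap.range (PR ψ T e)).map (E : V →ₗ[ℂ] V) := by
    rw [← LinearMap.range_comp]
    have h3 : (E : V →ₗ[ℂ] V) ∘ₗ PR ψ T e = PR ψ T (-e) ∘ₗ (E : V →ₗ[ℂ] V) := h1
    rw [h3, LinearMap.range_comp, LinearEquiv.range, Submodule.map_top]
  unfold mu
  rw [h2]
  exact LinearEquiv.finrank_map_eq E _

end

end Q155.EB
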