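import Pool.Agent.Q283.MC.Ind
import Pool.Agent.Q155.EB.Lin

/-!
# The Galois group of `ℚ(ω, ∛l_1, …, ∛l_k)`
-/

set_option autoImplicit false
set_option linter.unusedSectionVars false

open scoped Classical

namespace Q155.EB

open Module Polynomial
open Q283.MC (Rd Ind deg_dvd ind_of)

/-! ## powers with exponents modulo 3 -/

theorem pv_add {R : Type} [Monoid R] {x : R} (h : x ^ 3 = 1) (s t : ZMod 3) :
    x ^ (s + t).val = x ^ s.val * x ^ t.val := by
  rw [ZMod.val_add, ← pow_add, ← pow_eq_pow_mod _ h]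

theorem pv_pow {R : Type} [Monoid R] {x : R} (h : x ^ 3 = 1) (s : ZMod 3) (n : ℕ) :
    (x ^ s.val) ^ n = x ^ ((n : ZMod 3) * s).val := by
  rw [ZMod.val_mul, ← pow_mul, ← pow_eq_pow_mod _ h, ZMod.val_natCast, mul_comm s.val,
    pow_eq_pow_mod (n * s.val) h, pow_eq_pow_mod (n % 3 * s.val) h, Nat.mod_mul_mod]

theorem cube_one {R : Type} [CommRing R] {x : R} (h : x ^ 2 + x + 1 = 0) : x ^ 3 = 1 := by
  linear_combination (x - 1) * h

theorem pv_ne {R : Type} [CommRing R] [IsDomain R] {x : R} (h : x ^ 2 + x + 1 = 0)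
    (h3 : (3 : R) ≠ 0) {s : ZMod 3} (hs : s ≠ 0) : x ^ s.val ≠ 1 := by
  intro h1
  have h4 : s.val = 1 ∨ s.val = 2 := by
    clear h1
    revert s
    decide
  have hx : x = 1 := by
    rcases h4 with h4 | h4
    · rwa [h4, pow_one] at h1
    · rw [h4] at h1
      have := cube_one h
      linear_combination this - x * h1
  rw [hx] at h
  apply h3
  linear_combination h

theorem pv_inj {R : Type} [CommRing R] [IsDomain R] {x : R} (h : x ^ 2 + x + 1 = 0)
    (h3 : (3 : R) ≠ 0) {s t : ZMod 3} (hst : x ^ s.val = x ^ t.val) : s = t := by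
  by_contra hne
  apply pv_ne h h3 (sub_ne_zero.2 hne)
  have h1 := pv_add (cube_one h) (s - t) t
  rw [sub_add_cancel, hst] at h1
  have hx : x ^ t.val ≠ 0 := by
    intro h0
    have h2 : x ≠ 0 := by
      rintro rfl
      have := cube_one h
      norm_num at this
    exact h2 (eq_zero_of_pow_eq_zero h0)
  have h2 : (x ^ (s - t).val - 1) * x ^ t.val = 0 := by linear_combination -h1
  rcases mul_eq_zero.1 h2 with h3 | h3
  · exact sub_eq_zero.1 h3
  · exact absurd h3 hx

/-! ## the field -/

/-- `F = ℚ(i, θ_1, …, θ_k)` with a primitive cube root of unity `i` and cube roots `θ_j` of the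
`l_j` -/
structure Fd {k : ℕ} (F : Type) [Field F] [NumberField F] (l : Fin k → ℕ) (i : F) (θ : Fin k → F) :
    Prop where
  root : i ^ 2 + i + 1 = 0
  cube : ∀ j, θ j ^ 3 = (l j : F)
  gen : IntermediateField.adjoin ℚ ({i} ∪ Set.range θ) = ⊤

section
variable {F : Type} [Field F] [NumberField F] {k : ℕ} {l : Fin k → ℕ} {i : F} {θ : Fin k → F}

theorem Fd.i3 (h : Fd F l i θ) : i ^ 3 = 1 := cube_one h.root

theorem Fd.three (h : Fd F l i θ) : (3 : F) ≠ 0 := by norm_num

theorem Fd.gen' (h : Fd F l i θ) :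
    IntermediateField.adjoin ℚ ({x : F | x ^ 3 = 1} ∪ Set.range θ) = ⊤ := by
  rw [eq_top_iff, ← h.gen]
  refine IntermediateField.adjoin.mono _ _ _ (Set.union_subset_union_left _ ?_)
  rintro x rfl
  exact h.i3

theorem Fd.ne (h : Fd F l i θ) (hl : ∀ j, l j ≠ 0) (j : Fin k) : θ j ≠ 0 := by
  intro h0
  have := h.cube j
  rw [h0, zero_pow (by norm_num)] at this
  exact hl j (by exact_mod_cast this.symm)

theorem Fd.ine (h : Fd F l i θ) : i ≠ 0 := by
  rintro rfl
  have := h.i3
  norm_num at this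

theorem Fd.isGalois (h : Fd F l i θ) : IsGalois ℚ F := by
  have h1 : ∀ x ∈ ({i} ∪ Set.range θ : Set F), IsIntegral ℚ x ∧
      ((minpoly ℚ x).map (algebraMap ℚ F)).Splits := by
    intro x hx
    refine ⟨Algebra.IsIntegral.isIntegral x, ?_⟩
    rcases hx with hx | ⟨j, rfl⟩
    · obtain rfl : x = i := hx
      have h2 : minpoly ℚ x ∣ X ^ 2 + X + 1 := by
        apply minpoly.dvd
        simp [h.root]
      have h3 : ((X ^ 2 + X + 1 : ℚ[X]).map (algebraMap ℚ F)) = (X - C x) * (X - C (x ^ 2)) := by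
        have e1 : x ^ 2 = -x - 1 := by linear_combination h.root
        simp only [Polynomial.map_add, Polynomial.map_pow, map_X, Polynomial.map_one]
        have e3 : (C x : F[X]) ^ 3 = 1 := by rw [← C_pow, h.i3, C_1]
        rw [C_pow]
        have e2 : (C x : F[X]) ^ 2 + C x + 1 = 0 := by
          rw [← C_pow, ← C_add, ← C_1, ← C_add, h.root, C_0]
        linear_combination (X : F[X]) * e2 - e3
      refine Splits.of_dvd (g := (X ^ 2 + X + 1 : ℚ[X]).map (algebraMap ℚ F)) ?_ ?_
        (Polynomial.map_dvd _ h2)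
      · rw [h3]
        exact (Splits.X_sub_C _).mul (Splits.X_sub_C _)
      · rw [h3]
        exact mul_ne_zero (X_sub_C_ne_zero _) (X_sub_C_ne_zero _)
    · have h2 : minpoly ℚ (θ j) ∣ X ^ 3 - C ((l j : ℕ) : ℚ) := by
        apply minpoly.dvd
        simp [h.cube j]
      have h3 : ((X ^ 3 - C ((l j : ℕ) : ℚ) : ℚ[X]).map (algebraMap ℚ F)) =
          (X - C (θ j)) * ((X - C (i * θ j)) * (X - C (i ^ 2 * θ j))) := by
        simp only [Polynomial.map_sub, Polynomial.map_pow, map_X, map_natCast, Polynomial.map_natCast,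
          C_mul, C_pow]
        have e2 : (C i : F[X]) ^ 2 + C i + 1 = 0 := by
          rw [← C_pow, ← C_add, ← C_1, ← C_add, h.root, C_0]
        have e3 : (C (θ j) : F[X]) ^ 3 = C ((l j : ℕ) : F) := by rw [← C_pow, h.cube]
        rw [map_natCast] at e3
        linear_combination (X ^ 2 * C (θ j) - X * C (θ j) ^ 2 * C i + C (θ j) ^ 3 * (C i - 1)) * e2 + e3
      refine Splits.of_dvd (g := (X ^ 3 - C ((l j : ℕ) : ℚ) : ℚ[X]).map (algebraMap ℚ F)) ?_ ?_
        (Polynomial.map_dvd _ h2)
      · rw [h3]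
        exact (Splits.X_sub_C _).mul ((Splits.X_sub_C _).mul (Splits.X_sub_C _))
      · rw [h3]
        exact mul_ne_zero (X_sub_C_ne_zero _)
          (mul_ne_zero (X_sub_C_ne_zero _) (X_sub_C_ne_zero _))
  have hn : Normal ℚ F := by
    refine normal_iff.2 fun x => ⟨Algebra.IsIntegral.isIntegral x, ?_⟩
    exact IntermediateField.splits_of_mem_adjoin (L := F) (K := F) (F := ℚ) h1
      (by rw [h.gen]; exact IntermediateField.mem_top)
  exact isGalois_iff.2 ⟨inferInstance, hn⟩

theorem Fd.ext (h : Fd F l i θ) {g g' : F ≃ₐ[ℚ] F} (hi : g i = g' i) (hθ : ∀ j, g (θ j) = g' (θ j)) :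
    g = g' := by
  have h1 : (g : F →ₐ[ℚ] F) = g' := by
    have h2 : ∀ x ∈ IntermediateField.adjoin ℚ ({i} ∪ Set.range θ), g x = g' x := by
      intro x hx
      let S : IntermediateField ℚ F :=
        { carrier := {x | g x = g' x}
          mul_mem' := fun {a b} ha hb => by
            show g (a * b) = g' (a * b)
            rw [map_mul, map_mul, ha, hb]
          add_mem' := fun {a b} ha hb => by
            show g (a + b) = g' (a + b)
            rw [map_add, map_add, ha, hb]
          algebraMap_mem' := fun q => by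
            show g (algebraMap ℚ F q) = g' (algebraMap ℚ F q)
            rw [g.commutes, g'.commutes]
          inv_mem' := fun a ha => by
            show g a⁻¹ = g' a⁻¹
            rw [map_inv₀, map_inv₀]
            exact congrArg _ ha }
      have h3 : IntermediateField.adjoin ℚ ({i} ∪ Set.range θ) ≤ S := by
        rw [IntermediateField.adjoin_le_iff]
        rintro x (rfl | ⟨j, rfl⟩)
        · exact hi
        · exact hθ j
      exact h3 hx
    ext x
    exact h2 x (by rw [h.gen]; exact IntermediateField.mem_top)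
  ext x
  exact DFunLike.congr_fun h1 x

theorem Fd.root_cases (h : Fd F l i θ) {x : F} (hx : x ^ 2 + x + 1 = 0) : x = i ∨ x = i ^ 2 := by
  have h1 : (x - i) * (x - i ^ 2) = 0 := by
    linear_combination hx - x * h.root + h.i3
  rcases mul_eq_zero.1 h1 with h2 | h2
  · exact Or.inl (sub_eq_zero.1 h2)
  · exact Or.inr (sub_eq_zero.1 h2)

theorem Fd.map_root (h : Fd F l i θ) (g : F ≃ₐ[ℚ] F) : g i = i ∨ g i = i ^ 2 := by
  apply h.root_cases
  rw [← map_pow, ← map_add, ← map_one g, ← map_add, h.root, map_zero]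

theorem Fd.cube_cases (h : Fd F l i θ) {x y : F} (hxy : x ^ 3 = y ^ 3) :
    ∃ c : ZMod 3, x = i ^ c.val * y := by
  have h1 : (x - y) * ((x - i * y) * (x - i ^ 2 * y)) = 0 := by
    linear_combination hxy + (-x ^ 2 * y + x * y ^ 2) * h.root + (x * y ^ 2 - y ^ 3) * h.i3
  rcases mul_eq_zero.1 h1 with h2 | h2
  · exact ⟨0, by rw [ZMod.val_zero, pow_zero, one_mul]; exact sub_eq_zero.1 h2⟩
  rcases mul_eq_zero.1 h2 with h3 | h3
  · exact ⟨1, by rw [show (1 : ZMod 3).val = 1 from rfl, pow_one]; exact sub_eq_zero.1 h3⟩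
  · exact ⟨2, by rw [show (2 : ZMod 3).val = 2 from rfl]; exact sub_eq_zero.1 h3⟩

theorem Fd.map_cube (h : Fd F l i θ) (g : F ≃ₐ[ℚ] F) (j : Fin k) :
    ∃ c : ZMod 3, g (θ j) = i ^ c.val * θ j :=
  h.cube_cases (by rw [← map_pow, h.cube, map_natCast])

/-- the degree -/
theorem Fd.finrank (h : Fd F l i θ) (hl : ∀ j, (l j).Prime) (hinj : Function.Injective l) :
    Module.finrank ℚ F = 2 * 3 ^ k ∧
      ∀ (b : Bool) (u : Fin k → ZMod 3), ∃ g : F ≃ₐ[ℚ] F,
        g i = (if b then i ^ 2 else i) ∧ ∀ j, g (θ j) = i ^ (u j).val * θ j := by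
  have hind : Ind l := ind_of (fun j => (hl j).one_lt) (fun j => (hl j).prime.squarefree)
    fun i j hij => (Nat.coprime_primes (hl i) (hl j)).2 fun h => hij (hinj h)
  have hG := h.isGalois
  have hi2 : i ≠ i ^ 2 := by
    intro h1
    have h2 : i * (i - 1) = 0 := by linear_combination -h1
    rcases mul_eq_zero.1 h2 with h3 | h3
    · exact h.ine h3
    · have h4 : i = 1 := sub_eq_zero.1 h3
      have := h.root
      rw [h4] at this
      norm_num at this
  -- two divides the degree
  have hdeg2 : (minpoly ℚ i).natDegree = 2 := by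
    apply le_antisymm
    · have h2 : minpoly ℚ i ∣ X ^ 2 + X + 1 := by
        apply minpoly.dvd
        simp [h.root]
      have h3 : (X ^ 2 + X + 1 : ℚ[X]).natDegree = 2 := by compute_degree!
      rw [← h3]
      refine Polynomial.natDegree_le_of_dvd h2 ?_
      intro h0
      rw [h0, natDegree_zero] at h3
      omega
    · rw [minpoly.two_le_natDegree_iff (Algebra.IsIntegral.isIntegral i)]
      rintro ⟨q, hq⟩
      have h2 := h.root
      rw [← hq] at h2
      have h3 : q ^ 2 + q + 1 = 0 := by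
        apply (algebraMap ℚ F).injective
        rw [map_add, map_add, map_pow, map_one, map_zero]
        exact h2
      nlinarith [sq_nonneg (2 * q + 1)]
  have h2 : 2 ∣ Module.finrank ℚ F := by
    rw [← hdeg2, ← IntermediateField.adjoin.finrank (Algebra.IsIntegral.isIntegral i)]
    exact Dvd.intro _ (Module.finrank_mul_finrank ℚ (IntermediateField.adjoin ℚ {i}) F)
  have h3 : 3 ^ k ∣ Module.finrank ℚ F := deg_dvd h.cube hind
  have h4 : 2 * 3 ^ k ∣ Module.finrank ℚ F :=
    Nat.Coprime.mul_dvd_of_dvd_of_dvd (Nat.Coprime.pow_right k (by norm_num)) h2 h3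
  -- the type of an automorphism
  choose c hc using fun g : F ≃ₐ[ℚ] F => fun j => h.map_cube g j
  let f : (F ≃ₐ[ℚ] F) → Bool × (Fin k → ZMod 3) := fun g => (decide (g i = i ^ 2), c g)
  have hf : Function.Injective f := by
    intro g g' hgg
    have e1 : decide (g i = i ^ 2) = decide (g' i = i ^ 2) := congrArg Prod.fst hgg
    have e2 : c g = c g' := congrArg Prod.snd hgg
    have e1' : g i = i ^ 2 ↔ g' i = i ^ 2 := by simpa using e1
    refine h.ext ?_ fun j => by rw [hc, hc, e2]
    rcases h.map_root g with h5 | h5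
    · rcases h.map_root g' with h6 | h6
      · rw [h5, h6]
      · exact absurd ((e1'.2 h6).symm.trans h5).symm hi2
    · rw [h5, e1'.1 h5]
  have hcard : Fintype.card (F ≃ₐ[ℚ] F) = Module.finrank ℚ F := by
    rw [← Nat.card_eq_fintype_card, IsGalois.card_aut_eq_finrank]
  have hcard2 : Fintype.card (Bool × (Fin k → ZMod 3)) = 2 * 3 ^ k := by
    rw [Fintype.card_prod, Fintype.card_bool, Fintype.card_fun, ZMod.card, Fintype.card_fin]
  have h5 : Module.finrank ℚ F ≤ 2 * 3 ^ k := by
    rw [← hcard, ← hcard2]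
    exact Fintype.card_le_of_injective f hf
  have h6 : Module.finrank ℚ F = 2 * 3 ^ k :=
    le_antisymm h5 (Nat.le_of_dvd Module.finrank_pos h4)
  refine ⟨h6, fun b u => ?_⟩
  have hbij : Function.Bijective f :=
    (Fintype.bijective_iff_injective_and_card f).2 ⟨hf, by rw [hcard, hcard2, h6]⟩
  obtain ⟨g, hg⟩ := hbij.2 (b, u)
  have e1 : decide (g i = i ^ 2) = b := congrArg Prod.fst hg
  have e2 : c g = u := congrArg Prod.snd hg
  refine ⟨g, ?_, fun j => by rw [hc, e2]⟩
  cases b with
  | true =>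
    rw [if_pos rfl]
    simpa using e1
  | false =>
    have e3 : ¬ g i = i ^ 2 := by simpa using e1
    rcases h.map_root g with h7 | h7
    · simpa using h7
    · exact absurd h7 e3

end

end Q155.EB
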