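import Pool.Agent.Q155.EB.Fac
import Pool.Agent.Q155.PC.Const

/-!
# The twisted `L`-functions, and infinite sequences of primes
-/

set_option autoImplicit false
set_option linter.unusedSectionVars false

open scoped Classical

namespace Q155.EB

open NumberField Filter Topology
open Q283.MC (tw EL hasProd_pow)
open Q283.TQ (CN)
open Pool.Agent.Y703.CT (WD IsL Cls NoSplit)
open Q155.PC (Lv NX branch)

section
variable {F : Type} [Field F] [NumberField F] {k : ℕ} {l : Fin k → ℕ} {i : F} {θ : Fin k → F}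
variable {N : ℕ}
variable {V : Type} [AddCommGroup V] [Module ℂ V] [FiniteDimensional ℂ V]

/-- **The twisted `L`-function.** -/
theorem lfun (h : Fd F l i θ) (hl : ∀ j, (l j).Prime) (hl1 : ∀ j, l j % 3 = 1)
    (hinj : Function.Injective l) {f : (Fin k → ZMod 3) → ℂ → ℂ}
    (hf : ∀ e, IsL (WD ((tw N l e : ℕ) : ℤ)) (f e)) (hf1 : ∀ e, f e 1 ≠ 0)
    (τ : Representation ℂ (F ≃ₐ[ℚ] F) V) :
    ∃ Λ : ℂ → ℂ, Differentiable ℂ Λ ∧ Λ 1 ≠ 0 ∧ ∀ P : Nat.Primes → Ideal (𝓞 F),
      (∀ p, (P p).IsPrime ∧ (((p : ℕ) : ℕ) : 𝓞 F) ∈ P p) → ∀ s : ℂ, 3 / 2 < s.re →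
        HasProd (fun p : Nat.Primes => ef N τ p (P p) s) (Λ s) := by
  refine ⟨fun s => ∏ e, f e s ^ mt h hl hinj τ e, ?_, ?_, fun P hP s hs => ?_⟩
  · exact Differentiable.fun_finsetProd fun e _ => (hf e).1.fun_pow _
  · exact Finset.prod_ne_zero_iff.2 fun e _ => pow_ne_zero _ (hf1 e)
  · have h1 : HasProd (fun p : Nat.Primes => ∏ e, ((EL (tw N l e) s p)⁻¹) ^ mt h hl hinj τ e)
        (∏ e, f e s ^ mt h hl hinj τ e) :=
      hasProd_prod fun e _ => hasProd_pow ((hf e).2 s hs) _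
    refine h1.congr_fun fun p => ?_
    exact ef_eq h hl hl1 hinj τ p.2 (hP p).1 (hP p).2 s

end

/-! ## infinite sequences -/

theorem cn_true : Tendsto (fun X : ℕ => (CN (fun _ => True) X : ℝ)) atTop atTop := by
  have hinf : {l : ℕ | l.Prime ∧ l % 3 = 1}.Infinite := by
    have := Nat.infinite_setOfPred_prime_and_eq_mod (q := 3) (a := (1 : ZMod 3)) (by decide)
    refine this.mono fun l hl => ⟨hl.1, ?_⟩
    have h6 : ((l : ℕ) : ZMod 3) = ((1 : ℕ) : ZMod 3) := by rw [hl.2, Nat.cast_one]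
    rw [ZMod.natCast_eq_natCast_iff] at h6
    have h7 : l % 3 = 1 % 3 := h6
    simpa using h7
  rw [tendsto_atTop]
  intro b
  obtain ⟨S, hS, hSc⟩ := hinf.exists_subset_card_eq (Nat.ceil b)
  have hSb : ∃ X0, ∀ l ∈ S, l ≤ X0 := ⟨S.sup id, fun l hl => Finset.le_sup (f := id) hl⟩
  obtain ⟨X0, hX0⟩ := hSb
  filter_upwards [eventually_ge_atTop X0] with X hX
  have h8 : S ⊆ (Finset.range (X + 1)).filter fun l => (l.Prime ∧ l % 3 = 1) ∧ True := by
    intro l hl
    rw [Finset.mem_filter, Finset.mem_range]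
    have h9 := hX0 l hl
    have h10 : l.Prime ∧ l % 3 = 1 := hS hl
    exact ⟨by omega, h10, trivial⟩
  have h11 := Finset.card_le_card h8
  rw [hSc] at h11
  have h12 : Nat.ceil b ≤ CN (fun _ => True) X := by
    unfold CN
    convert h11
  exact (Nat.le_ceil b).trans (by exact_mod_cast h12)

/-- a set of primes of positive relative density is unbounded -/
theorem unb {A S : ℕ → Prop} {δ : ℝ} (hδ : 0 < δ)
    (h1 : Tendsto (fun X : ℕ => (CN A X : ℝ) / (CN (fun _ => True) X : ℝ)) atTop (𝓝 (1 / 3)))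
    (h2 : Tendsto (fun X : ℕ => (CN S X : ℝ) / (CN A X : ℝ)) atTop (𝓝 δ)) (B : ℕ) :
    ∃ m, B < m ∧ m.Prime ∧ S m := by
  by_contra hcon
  push Not at hcon
  have hbd : ∀ X : ℕ, CN S X ≤ B + 1 := by
    intro X
    unfold CN
    refine (Finset.card_le_card (t := Finset.range (B + 1)) fun l hl => ?_).trans
      (by rw [Finset.card_range])
    rw [Finset.mem_filter] at hl
    rw [Finset.mem_range]
    by_contra hlt
    exact hcon l (by omega) hl.2.1.1 hl.2.2
  have h3 : Tendsto (fun X : ℕ => (CN S X : ℝ) / (CN (fun _ => True) X : ℝ)) atTop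
      (𝓝 (δ * (1 / 3))) := by
    have hA : ∀ᶠ X : ℕ in atTop, (0 : ℝ) < (CN A X : ℝ) / (CN (fun _ => True) X : ℝ) :=
      h1.eventually (Ioi_mem_nhds (by norm_num))
    refine (h2.mul h1).congr' ?_
    filter_upwards [hA] with X hX
    have h0 : (CN A X : ℝ) ≠ 0 := by
      intro h0
      rw [h0, zero_div] at hX
      exact lt_irrefl _ hX
    have h5 : (CN (fun _ => True) X : ℝ) ≠ 0 := by
      intro h5
      rw [h5, div_zero] at hX
      exact lt_irrefl _ hX
    field_simp
  have h4 : Tendsto (fun X : ℕ => (CN S X : ℝ) / (CN (fun _ => True) X : ℝ)) atTop (𝓝 0) := by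
    refine squeeze_zero (fun X => by positivity) (fun X => ?_)
      (cn_true.const_div_atTop ((B : ℝ) + 1))
    refine div_le_div_of_nonneg_right ?_ (by positivity)
    exact_mod_cast hbd X
  have := tendsto_nhds_unique h3 h4
  linarith

/-- **An infinite sequence.** -/
theorem exists_seq {ι : Type} [Fintype ι] [Nonempty ι] {D : ι → ℕ} (hD : ∀ i, Cls (D i))
    (hS : ∀ i, NoSplit (D i)) :
    ∃ l : ℕ → ℕ, StrictMono l ∧ ∀ k, Lv D fun j : Fin k => l j := by
  have h0 : Lv D (fun j : Fin 0 => (0 : ℕ)) := by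
    refine ⟨fun j => j.elim0, fun i => i.elim0, fun i e => ?_⟩
    have h0 : tw (D i) (fun j : Fin 0 => (0 : ℕ)) e = D i := by
      unfold tw
      rw [Fin.prod_univ_zero, mul_one]
    rw [h0]
    exact (Q283.TQ.con_iff (hD i)).2 (hS i)
  have step : ∀ (k : ℕ) (a : {a : ℕ → ℕ // Lv D fun j : Fin k => a j}),
      ∃ m : ℕ, (∀ j < k, (a : ℕ → ℕ) j < m) ∧
        Lv D fun j : Fin (k + 1) => Function.update (a : ℕ → ℕ) k m j := by
    intro k a
    obtain ⟨g1, g2, g3⟩ := branch hD a.2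
    obtain ⟨m, hm, -, hS⟩ := unb g3 g1 g2 ((Finset.range k).sup a)
    refine ⟨m, fun j hj => lt_of_le_of_lt
      (Finset.le_sup (f := (a : ℕ → ℕ)) (Finset.mem_range.2 hj)) hm, ?_⟩
    have : (fun j : Fin (k + 1) => Function.update (a : ℕ → ℕ) k m j) =
        Fin.snoc (α := fun _ => ℕ) (fun j : Fin k => (a : ℕ → ℕ) j) m := by
      funext j
      refine Fin.lastCases ?_ (fun j => ?_) j
      · rw [Fin.snoc_last, Fin.val_last, Function.update_self]
      · rw [Fin.snoc_castSucc, Function.update_of_ne]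
        · rfl
        · exact j.2.ne
    rw [this]
    exact hS
  choose m hm1 hm2 using step
  let S : ∀ k : ℕ, {a : ℕ → ℕ // Lv D fun j : Fin k => a j} := fun k =>
    Nat.rec ⟨fun _ => 0, h0⟩ (fun k a => ⟨Function.update (a : ℕ → ℕ) k (m k a), hm2 k a⟩) k
  have hSs : ∀ k, (S (k + 1)).1 = Function.update (S k).1 k (m k (S k)) :=
    fun k => rfl
  let l : ℕ → ℕ := fun k => m k (S k)
  have hl : ∀ k j, j < k → (S k).1 j = l j := by
    intro k
    induction k with
    | zero =>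
      intro j hj
      omega
    | succ k ih =>
      intro j hj
      rw [hSs]
      by_cases hjk : j = k
      · rw [hjk, Function.update_self]
      · rw [Function.update_of_ne hjk]
        exact ih j (by omega)
  refine ⟨l, strictMono_nat_of_lt_succ fun k => ?_, fun k => ?_⟩
  · have h1 := hm1 (k + 1) (S (k + 1)) k (Nat.lt_succ_self k)
    rw [hl (k + 1) k (Nat.lt_succ_self k)] at h1
    exact h1
  · have h1 : (fun j : Fin k => l j) = fun j : Fin k => (S k).1 j := by
      funext j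
      exact (hl k j j.2).symm
    rw [h1]
    exact (S k).2

end Q155.EB
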