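import Pool.Agent.Q155.EB.Ram

/-!
# The set of all Frobenius elements at `P`, and the mean of a representation over it
-/

set_option autoImplicit false
set_option linter.unusedSectionVars false

open scoped Classical

namespace Q155.EB

open NumberField
open Pool.Agent.Y692.QS (Ei w nr toC nr_star mul_star red red_zero)
open Pool.Agent.Y715.T.Rec (cs nn)
open Pool.Agent.Y715.T.RecG (Pq cs_spec cs_of cs_prod cs_pow)

section
variable {F : Type} [Field F] [NumberField F] {k : ℕ} {l : Fin k → ℕ} {i : F} {θ : Fin k → F}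
variable {p : ℕ} {P : Ideal (𝓞 F)}

theorem Fd.inertia_mem (h : Fd F l i θ) (hl : ∀ j, (l j).Prime) (hinj : Function.Injective l)
    {j0 : Fin k} (hp0 : p = l j0) (hp3 : p ≠ 3) (hP : P.IsPrime) (hpP : (p : 𝓞 F) ∈ P)
    {g : F ≃ₐ[ℚ] F} (hgi : g i = i) (hgθ : ∀ j, j ≠ j0 → g (θ j) = θ j) (x : 𝓞 F) :
    g • x - x ∈ P := by
  have hp : p.Prime := hp0 ▸ hl j0
  have hG := h.isGalois
  obtain ⟨I, hI⟩ := h.int_i
  have hq : (Ideal.Quotient.mk P I) ^ 2 + Ideal.Quotient.mk P I + 1 = 0 := by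
    rw [← map_pow, ← map_add, ← map_one (Ideal.Quotient.mk P), ← map_add, h.I2 hI, map_zero]
  obtain ⟨Θ0, hΘ0⟩ := h.int_θ j0
  have h1 := inertia_card hp hP hpP (x := Θ0) (by rw [h.Θ3 hΘ0, hp0])
  obtain ⟨g0, hg0⟩ : ∃ g0 : P.inertia (F ≃ₐ[ℚ] F), g0 ≠ 1 := by
    by_contra hcon
    push Not at hcon
    have : Subsingleton (P.inertia (F ≃ₐ[ℚ] F)) := ⟨fun a b => by rw [hcon a, hcon b]⟩
    rw [Nat.card_of_subsingleton (1 : P.inertia (F ≃ₐ[ℚ] F))] at h1
    omega
  have hmem : ∀ (g : P.inertia (F ≃ₐ[ℚ] F)) (x : 𝓞 F), (g : F ≃ₐ[ℚ] F) • x - x ∈ P :=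
    fun g x => g.2 x
  -- the type of an element of the inertia group
  have hti : ∀ g : P.inertia (F ≃ₐ[ℚ] F), (g : F ≃ₐ[ℚ] F) i = i := by
    intro g
    obtain ⟨c, hc⟩ := h.cube_cases (x := (g : F ≃ₐ[ℚ] F) i) (y := 1)
      (by rw [← map_pow, h.i3, map_one, one_pow])
    rw [mul_one] at hc
    have h2 := hmem g I
    rw [act_I hI hc, ← Ideal.Quotient.eq_zero_iff_mem, map_sub, map_pow, sub_eq_zero] at h2
    have h3 : (Ideal.Quotient.mk P I) ^ c.val = (Ideal.Quotient.mk P I) ^ (1 : ZMod 3).val := by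
      rw [h2, show (1 : ZMod 3).val = 1 from rfl, pow_one]
    rw [hc, pv_inj hq (three_ne hp hp3 hP hpP) h3, show (1 : ZMod 3).val = 1 from rfl, pow_one]
  have htθ : ∀ (g : P.inertia (F ≃ₐ[ℚ] F)) (j : Fin k), j ≠ j0 → (g : F ≃ₐ[ℚ] F) (θ j) = θ j := by
    intro g j hj
    obtain ⟨c, hc⟩ := h.map_cube g j
    obtain ⟨Θ, hΘ⟩ := h.int_θ j
    have h2 := hmem g Θ
    rw [act_Θ hI hΘ hc, ← Ideal.Quotient.eq_zero_iff_mem, map_sub, map_mul, map_pow,
      sub_eq_zero] at h2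
    have hpl : ¬ p ∣ l j := fun hd => hj (hinj (by
      rw [← hp0]
      exact ((Nat.prime_dvd_prime_iff_eq hp (hl j)).1 hd).symm))
    have hq3 : (Ideal.Quotient.mk P Θ) ^ 3 = ((l j : ℕ) : 𝓞 F ⧸ P) := by
      rw [← map_pow, h.Θ3 hΘ, map_natCast]
    have hq0 : Ideal.Quotient.mk P Θ ≠ 0 := by
      intro h0
      rw [h0, zero_pow (by norm_num)] at hq3
      exact nat_ne hp hP hpP hpl hq3.symm
    have h3 : (Ideal.Quotient.mk P I) ^ c.val = (Ideal.Quotient.mk P I) ^ (0 : ZMod 3).val := by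
      apply mul_right_cancel₀ hq0
      rw [h2, ZMod.val_zero, pow_zero, one_mul]
    rw [hc, pv_inj hq (three_ne hp hp3 hP hpP) h3, ZMod.val_zero, pow_zero, one_mul]
  obtain ⟨t, ht⟩ := h.map_cube g j0
  obtain ⟨s, hs⟩ := h.map_cube g0 j0
  have hs0 : s ≠ 0 := by
    rintro rfl
    apply hg0
    apply Subtype.ext
    apply h.ext
    · rw [hti g0]
      rfl
    · intro j
      by_cases hj : j = j0
      · rw [hj, hs, ZMod.val_zero, pow_zero, one_mul]
        rfl
      · rw [htθ g0 j hj]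
        rfl
  have hcases : t = 0 ∨ t = s ∨ t = s + s := by
    clear hs ht
    revert s t
    decide
  rcases hcases with rfl | rfl | rfl
  · have : g = 1 := by
      apply h.ext
      · exact hgi
      · intro j
        by_cases hj : j = j0
        · rw [hj, ht, ZMod.val_zero, pow_zero, one_mul]
          rfl
        · exact hgθ j hj
    rw [this, one_smul, sub_self]
    exact P.zero_mem
  · have : g = g0 := by
      apply h.ext
      · rw [hgi, hti]
      · intro j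
        by_cases hj : j = j0
        · rw [hj, ht, hs]
        · rw [hgθ j hj, htθ g0 j hj]
    rw [this]
    exact hmem g0 x
  · have : g = ((g0 * g0 : P.inertia (F ≃ₐ[ℚ] F)) : F ≃ₐ[ℚ] F) := by
      apply h.ext
      · rw [hgi, hti]
      · intro j
        by_cases hj : j = j0
        · rw [hj, ht, pv_add h.i3]
          show _ = (g0 : F ≃ₐ[ℚ] F) ((g0 : F ≃ₐ[ℚ] F) (θ j0))
          rw [hs, map_mul, map_pow, hti g0, hs, mul_assoc]
        · rw [hgθ j hj, htθ _ j hj]
    rw [this]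
    exact hmem _ x

/-- **All Frobenius elements, split case.** -/
theorem Fd.fr_iff (h : Fd F l i θ) (hl : ∀ j, (l j).Prime) (hinj : Function.Injective l)
    (hp : p.Prime) (hm : p % 3 = 1) (hP : P.IsPrime) (hpP : (p : 𝓞 F) ∈ P) {π : Ei} (hπ : Pq π)
    (hn : nr π = p) :
    ∃ κ : ZMod 3, κ ≠ 0 ∧ ∀ g : F ≃ₐ[ℚ] F, IsFr p P g ↔ (g i = i ∧ ∀ (j : Fin k), p ≠ l j →
      g (θ j) = i ^ (κ * cs π (l j : Ei)).val * θ j) := by
  have hG := h.isGalois
  have hp3 : p ≠ 3 := by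
    rintro rfl
    norm_num at hm
  have hpl : ∀ j, p ≠ l j → ¬ p ∣ l j := fun j hj hd =>
    hj ((Nat.prime_dvd_prime_iff_eq hp (hl j)).1 hd)
  obtain ⟨κ, hκ0, hκ⟩ := h.fr_type hp hm hP hpP hπ hn
  refine ⟨κ, hκ0, fun g => ⟨fun hg => ⟨(hκ g hg).1, fun j hj => (hκ g hg).2 j (hpl j hj)⟩, ?_⟩⟩
  rintro ⟨hgi, hgθ⟩
  obtain ⟨g0, hg0⟩ := fr_exists hp hP hpP (F := F)
  obtain ⟨h0i, h0θ⟩ := hκ g0 hg0
  have hinv : ∀ x : 𝓞 F, (g * g0⁻¹) • x - x ∈ P := by
    have e1 : ∀ x, g0⁻¹ (g0 x) = x := fun x => g0.symm_apply_apply x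
    have e2 : (g * g0⁻¹) i = i := by
      show g (g0⁻¹ i) = i
      have : g0⁻¹ i = i := by
        conv_lhs => rw [← h0i]
        exact e1 i
      rw [this, hgi]
    have e3 : ∀ j, p ≠ l j → (g * g0⁻¹) (θ j) = θ j := by
      intro j hj
      show g (g0⁻¹ (θ j)) = θ j
      have h3 := h0θ j (hpl j hj)
      have h4 : g0⁻¹ (θ j) = i ^ (-(κ * cs π (l j : Ei))).val * θ j := by
        have h5 : g0 (i ^ (-(κ * cs π (l j : Ei))).val * θ j) = θ j := by
          rw [map_mul, map_pow, h0i, h3, ← mul_assoc, ← pv_add h.i3, neg_add_cancel, ZMod.val_zero,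
            pow_zero, one_mul]
        conv_lhs => rw [← h5]
        exact e1 _
      rw [h4, map_mul, map_pow, hgi, hgθ j hj, ← mul_assoc, ← pv_add h.i3, neg_add_cancel,
        ZMod.val_zero, pow_zero, one_mul]
    by_cases hex : ∃ j0, p = l j0
    · obtain ⟨j0, hj0⟩ := hex
      exact h.inertia_mem hl hinj hj0 hp3 hP hpP e2 fun j hj => e3 j fun hpj => hj
        (hinj (by rw [← hpj, hj0]))
    · push Not at hex
      have : g * g0⁻¹ = 1 := h.ext e2 fun j => e3 j (hex j)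
      intro x
      rw [this, one_smul, sub_self]
      exact P.zero_mem
  intro x
  have h6 := hinv (g0 • x)
  rw [mul_smul, inv_smul_smul] at h6
  have h7 := hg0 x
  have h8 := P.add_mem h6 h7
  have h9 : g • x - g0 • x + (g0 • x - x ^ p) = g • x - x ^ p := by ring
  rwa [h9] at h8

/-! ## the elements of the group -/

/-- the automorphism fixing `i` of the type `u` -/
noncomputable def gu (h : Fd F l i θ) (hl : ∀ j, (l j).Prime) (hinj : Function.Injective l)
    (u : Fin k → ZMod 3) : F ≃ₐ[ℚ] F := ((h.finrank hl hinj).2 false u).choose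

theorem gu_i (h : Fd F l i θ) (hl : ∀ j, (l j).Prime) (hinj : Function.Injective l)
    (u : Fin k → ZMod 3) : gu h hl hinj u i = i := by
  exact ((h.finrank hl hinj).2 false u).choose_spec.1.trans (if_neg (by decide))

theorem gu_θ (h : Fd F l i θ) (hl : ∀ j, (l j).Prime) (hinj : Function.Injective l)
    (u : Fin k → ZMod 3) (j : Fin k) : gu h hl hinj u (θ j) = i ^ (u j).val * θ j :=
  ((h.finrank hl hinj).2 false u).choose_spec.2 j

theorem gu_zero (h : Fd F l i θ) (hl : ∀ j, (l j).Prime) (hinj : Function.Injective l) :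
    gu h hl hinj 0 = 1 := by
  apply h.ext
  · exact gu_i h hl hinj 0
  · intro j
    rw [gu_θ, Pi.zero_apply, ZMod.val_zero, pow_zero, one_mul]
    rfl

theorem gu_add (h : Fd F l i θ) (hl : ∀ j, (l j).Prime) (hinj : Function.Injective l)
    (u v : Fin k → ZMod 3) : gu h hl hinj (u + v) = gu h hl hinj u * gu h hl hinj v := by
  apply h.ext
  · show _ = gu h hl hinj u (gu h hl hinj v i)
    rw [gu_i, gu_i, gu_i]
  · intro j
    show _ = gu h hl hinj u (gu h hl hinj v (θ j))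
    rw [gu_θ, gu_θ, map_mul, map_pow, gu_i, gu_θ, Pi.add_apply, pv_add h.i3, ← mul_assoc,
      mul_comm (i ^ (u j).val)]

theorem gu_neg (h : Fd F l i θ) (hl : ∀ j, (l j).Prime) (hinj : Function.Injective l)
    (u : Fin k → ZMod 3) : gu h hl hinj (-u) = (gu h hl hinj u)⁻¹ := by
  rw [eq_inv_iff_mul_eq_one, ← gu_add, neg_add_cancel, gu_zero]

theorem gu_inj (h : Fd F l i θ) (hl : ∀ j, (l j).Prime) (hinj : Function.Injective l) :
    Function.Injective (gu h hl hinj) := by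
  intro u v huv
  funext j
  have h1 := DFunLike.congr_fun huv (θ j)
  rw [gu_θ, gu_θ] at h1
  exact pv_inj h.root h.three (mul_right_cancel₀ (h.ne (fun j => (hl j).ne_zero) j) h1)

theorem gu_ex (h : Fd F l i θ) (hl : ∀ j, (l j).Prime) (hinj : Function.Injective l)
    {g : F ≃ₐ[ℚ] F} (hg : g i = i) : ∃ u, gu h hl hinj u = g := by
  choose c hc using fun j => h.map_cube g j
  refine ⟨c, h.ext ?_ fun j => ?_⟩
  · rw [gu_i, hg]
  · rw [gu_θ, hc]

/-- the conjugation -/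
theorem conj_ex (h : Fd F l i θ) (hl : ∀ j, (l j).Prime) (hinj : Function.Injective l) :
    ∃ c : F ≃ₐ[ℚ] F, c * c = 1 ∧ ∀ u, c * gu h hl hinj u = gu h hl hinj (-u) * c := by
  obtain ⟨c, hc, hcθ⟩ := (h.finrank hl hinj).2 true 0
  rw [if_pos rfl] at hc
  have hcθ' : ∀ j, c (θ j) = θ j := by
    intro j
    rw [hcθ, Pi.zero_apply, ZMod.val_zero, pow_zero, one_mul]
  have h4 : (i ^ 2) ^ 2 = i := by linear_combination i * h.i3
  refine ⟨c, h.ext ?_ fun j => ?_, fun u => h.ext ?_ fun j => ?_⟩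
  · show c (c i) = i
    rw [hc, map_pow, hc, h4]
  · show c (c (θ j)) = θ j
    rw [hcθ', hcθ']
  · show c (gu h hl hinj u i) = gu h hl hinj (-u) (c i)
    rw [gu_i, hc, map_pow, gu_i]
  · show c (gu h hl hinj u (θ j)) = gu h hl hinj (-u) (c (θ j))
    rw [gu_θ, hcθ', gu_θ, map_mul, map_pow, hc, hcθ', Pi.neg_apply]
    congr 1
    have : ((i ^ 2) ^ (u j).val) * i ^ (u j).val = i ^ (-(u j)).val * i ^ (u j).val := by
      rw [← pv_add h.i3, neg_add_cancel, ZMod.val_zero, pow_zero, ← mul_pow]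
      have : i ^ 2 * i = 1 := by linear_combination h.i3
      rw [this, one_pow]
    exact mul_right_cancel₀ (pow_ne_zero _ h.ine) this

end

/-! ## sums over cosets -/

section
variable {k : ℕ} {ψ : ZMod 3 → ℂ}

/-- the coset -/
noncomputable def CS (Z : Fin k → Prop) (c : Fin k → ZMod 3) : Finset (Fin k → ZMod 3) :=
  Finset.univ.filter fun v => ∀ j, ¬ Z j → v j = c j

theorem mem_CS {Z : Fin k → Prop} {c v : Fin k → ZMod 3} :
    v ∈ CS Z c ↔ ∀ j, ¬ Z j → v j = c j := by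
  unfold CS
  rw [Finset.mem_filter]
  exact ⟨fun h => h.2, fun h => ⟨Finset.mem_univ _, h⟩⟩

theorem sum_CS (h : Ch ψ) (Z : Fin k → Prop) (c e : Fin k → ZMod 3) :
    ∑ v ∈ CS Z c, ψ (-pr e v) = (CS Z c).card * (if ∀ j, Z j → e j = 0 then
      ψ (-pr e fun j => if Z j then 0 else c j) else 0) := by
  by_cases hz : ∀ j, Z j → e j = 0
  · rw [if_pos hz, ← nsmul_eq_mul]
    refine Finset.sum_eq_card_nsmul fun v hv => ?_
    rw [mem_CS] at hv
    congr 2
    unfold pr
    refine Finset.sum_congr rfl fun j _ => ?_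
    by_cases hj : Z j
    · rw [hz j hj, zero_mul, zero_mul]
    · rw [hv j hj]
      simp only [if_neg hj]
  · rw [if_neg hz, mul_zero]
    push Not at hz
    obtain ⟨j0, hj0, he⟩ := hz
    have h1 : ∑ v ∈ CS Z c, ψ (-pr e v) = ψ (-e j0) * ∑ v ∈ CS Z c, ψ (-pr e v) := by
      rw [Finset.mul_sum]
      refine (Finset.sum_bij (fun v _ => v + Pi.single j0 1) ?_ ?_ ?_ ?_).symm
      · intro v hv
        rw [mem_CS] at hv ⊢
        intro j hj
        rw [Pi.add_apply, Pi.single_eq_of_ne, add_zero, hv j hj]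
        rintro rfl
        exact hj hj0
      · intro v _ v' _ h2
        exact add_right_cancel h2
      · intro v hv
        refine ⟨v - Pi.single j0 1, ?_, sub_add_cancel _ _⟩
        rw [mem_CS] at hv ⊢
        intro j hj
        rw [Pi.sub_apply, Pi.single_eq_of_ne, sub_zero, hv j hj]
        rintro rfl
        exact hj hj0
      · intro v _
        rw [pr_add, pr_single, mul_one, neg_add, h.add, mul_comm]
    have h2 : (1 - ψ (-e j0)) * ∑ v ∈ CS Z c, ψ (-pr e v) = 0 := by linear_combination h1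
    rcases mul_eq_zero.1 h2 with h3 | h3
    · exact absurd (sub_eq_zero.1 h3).symm (h.ne _ (neg_ne_zero.2 he))
    · exact h3

end

section
variable {F : Type} [Field F] [NumberField F] {k : ℕ} {l : Fin k → ℕ} {i : F} {θ : Fin k → F}
variable {p : ℕ} {P : Ideal (𝓞 F)}
variable {V : Type} [AddCommGroup V] [Module ℂ V]

/-- the mean of `τ(g⁻¹)` over the Frobenius elements `g` -/
noncomputable def mean (τ : Representation ℂ (F ≃ₐ[ℚ] F) V) (p : ℕ) (P : Ideal (𝓞 F)) :
    V →ₗ[ℂ] V :=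
  ((Finset.univ.filter fun g : F ≃ₐ[ℚ] F => IsFr p P g).card : ℂ)⁻¹ •
    ∑ g ∈ Finset.univ.filter (fun g : F ≃ₐ[ℚ] F => IsFr p P g), τ g⁻¹

variable (τ : Representation ℂ (F ≃ₐ[ℚ] F) V)

theorem mean_split (h : Fd F l i θ) (hl : ∀ j, (l j).Prime) (hinj : Function.Injective l)
    {ψ : ZMod 3 → ℂ} (hψ : Ch ψ) {c : Fin k → ZMod 3}
    (hfr : ∀ g : F ≃ₐ[ℚ] F, IsFr p P g ↔ (g i = i ∧ ∀ (j : Fin k), p ≠ l j →
      g (θ j) = i ^ (c j).val * θ j)) (e : Fin k → ZMod 3) :
    mean τ p P * PR ψ (fun u => τ (gu h hl hinj u)) e =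
      (if ∀ j, p = l j → e j = 0 then ψ (-pr e fun j => if p = l j then 0 else c j) else 0) •
        PR ψ (fun u => τ (gu h hl hinj u)) e := by
  have hS : (Finset.univ.filter fun g : F ≃ₐ[ℚ] F => IsFr p P g) =
      (CS (fun j => p = l j) c).image (gu h hl hinj) := by
    ext g
    rw [Finset.mem_filter, Finset.mem_image, hfr g]
    constructor
    · rintro ⟨-, h1, h2⟩
      obtain ⟨u, rfl⟩ := gu_ex h hl hinj h1
      refine ⟨u, mem_CS.2 fun j hj => ?_, rfl⟩
      have h3 := h2 j hj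
      rw [gu_θ] at h3
      exact pv_inj h.root h.three (mul_right_cancel₀ (h.ne (fun j => (hl j).ne_zero) j) h3)
    · rintro ⟨u, hu, rfl⟩
      refine ⟨Finset.mem_univ _, gu_i h hl hinj u, fun j hj => ?_⟩
      rw [gu_θ, mem_CS.1 hu j hj]
  have hcard : (Finset.univ.filter fun g : F ≃ₐ[ℚ] F => IsFr p P g).card =
      (CS (fun j => p = l j) c).card := by
    rw [hS, Finset.card_image_of_injective _ (gu_inj h hl hinj)]
  have hne : ((CS (fun j => p = l j) c).card : ℂ) ≠ 0 := by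
    have : (CS (fun j => p = l j) c).card ≠ 0 :=
      Finset.card_ne_zero_of_mem (mem_CS.2 fun j _ => rfl : c ∈ _)
    exact_mod_cast this
  have hT : ∀ u v : Fin k → ZMod 3, τ (gu h hl hinj (u + v)) =
      τ (gu h hl hinj u) * τ (gu h hl hinj v) := fun u v => by rw [gu_add, map_mul]
  have key := fun v => T_PR (T := fun u => τ (gu h hl hinj u)) hψ hT e (-v)
  unfold mean
  rw [hcard, hS, Finset.sum_image fun _ _ _ _ h' => gu_inj h hl hinj h', smul_mul_assoc,
    Finset.sum_mul]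
  have h2 : ∀ v ∈ CS (fun j => p = l j) c,
      τ (gu h hl hinj v)⁻¹ * PR ψ (fun u => τ (gu h hl hinj u)) e =
      ψ (-pr e v) • PR ψ (fun u => τ (gu h hl hinj u)) e := by
    intro v _
    rw [← gu_neg, ← pr_neg]
    exact key v
  rw [Finset.sum_congr rfl h2, ← Finset.sum_smul, sum_CS hψ, smul_smul, ← mul_assoc,
    inv_mul_cancel₀ hne, one_mul]
  congr!

theorem mean_inert (h : Fd F l i θ) (hp : p.Prime) (hm : p % 3 = 2) (hP : P.IsPrime)
    (hpP : (p : 𝓞 F) ∈ P) (hl : ∀ j, ¬ p ∣ l j) : mean τ p P * mean τ p P = 1 := by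
  have hG := h.isGalois
  obtain ⟨g, hg⟩ := fr_exists hp hP hpP (F := F)
  obtain ⟨h1, h2⟩ := h.fr_inert hp hm hP hpP hl hg
  have hS : (Finset.univ.filter fun g : F ≃ₐ[ℚ] F => IsFr p P g) = {g} := by
    ext g'
    rw [Finset.mem_filter, Finset.mem_singleton]
    exact ⟨fun h' => h2 g' h'.2, fun h' => ⟨Finset.mem_univ _, h' ▸ hg⟩⟩
  unfold mean
  rw [hS, Finset.card_singleton, Finset.sum_singleton, Nat.cast_one, inv_one, one_smul, ← map_mul,
    ← mul_inv_rev, h1, inv_one, map_one]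

end

end Q155.EB
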