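import Pool.Agent.Q155.EB.Frob

/-!
# Existence of Frobenius elements and the inertia group at `l_j`
-/

set_option autoImplicit false
set_option linter.unusedSectionVars false

open scoped Classical

namespace Q155.EB

open NumberField

section
variable {F : Type} [Field F] [NumberField F] {p : ℕ} {P : Ideal (𝓞 F)}

theorem under_eq (hp : p.Prime) (hP : P.IsPrime) (hpP : (p : 𝓞 F) ∈ P) :
    P.under ℤ = Ideal.span {(p : ℤ)} := by
  have hmax : (Ideal.span {(p : ℤ)}).IsMaximal :=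
    PrincipalIdealRing.isMaximal_of_irreducible (Nat.prime_iff_prime_int.1 hp).irreducible
  have h1 : Ideal.span {(p : ℤ)} ≤ P.under ℤ := by
    rw [Ideal.span_singleton_le_iff_mem, Ideal.under, Ideal.mem_comap]
    simpa using hpP
  exact (hmax.eq_of_le (Ideal.IsPrime.ne_top inferInstance) h1).symm

theorem ne_bot' (hp : p.Prime) (hpP : (p : 𝓞 F) ∈ P) : P ≠ ⊥ := by
  rintro rfl
  have h1 : (p : 𝓞 F) = 0 := by simpa using hpP
  exact hp.ne_zero (by exact_mod_cast h1)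

theorem fr_exists [IsGalois ℚ F] (hp : p.Prime) (hP : P.IsPrime) (hpP : (p : 𝓞 F) ∈ P) :
    ∃ g : F ≃ₐ[ℚ] F, IsFr p P g := by
  have : Finite (𝓞 F ⧸ P) := Ideal.finiteQuotientOfFreeOfNeBot P (ne_bot' hp hpP)
  obtain ⟨σ, hσ⟩ := IsArithFrobAt.exists_of_isInvariant ℤ (F ≃ₐ[ℚ] F) P
  have hc : Nat.card (ℤ ⧸ P.under ℤ) = p := by
    rw [under_eq hp hP hpP, Nat.card_congr (Int.quotientSpanNatEquivZMod p).toEquiv, Nat.card_zmod]
  refine ⟨σ, fun x => ?_⟩
  have h1 := hσ x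
  rw [hc] at h1
  exact h1

theorem inertia_card [IsGalois ℚ F] (hp : p.Prime) (hP : P.IsPrime) (hpP : (p : 𝓞 F) ∈ P)
    {x : 𝓞 F} (hx : x ^ 3 = (p : 𝓞 F)) : 1 < Nat.card (P.inertia (F ≃ₐ[ℚ] F)) := by
  have hmax : (Ideal.span {(p : ℤ)}).IsMaximal :=
    PrincipalIdealRing.isMaximal_of_irreducible (Nat.prime_iff_prime_int.1 hp).irreducible
  have hpr : (Ideal.span {(p : ℤ)}).IsPrime := hmax.isPrime
  have hlo : P.LiesOver (Ideal.span {(p : ℤ)}) := ⟨(under_eq hp hP hpP).symm⟩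
  have hfin : Finite (ℤ ⧸ Ideal.span {(p : ℤ)}) := by
    have : NeZero p := ⟨hp.ne_zero⟩
    exact Finite.of_equiv _ (Int.quotientSpanNatEquivZMod p).symm.toEquiv
  have hpf : PerfectField (Ideal.span {(p : ℤ)}).ResidueField := inferInstance
  rw [Ideal.card_inertia_eq_ramificationIdxIn (R := ℤ) (S := 𝓞 F) (Ideal.span {(p : ℤ)}) P,
    Ideal.ramificationIdxIn_eq_ramificationIdx (Ideal.span {(p : ℤ)}) P (F ≃ₐ[ℚ] F)]
  have hne : Ideal.span {(p : ℤ)} ≠ ⊥ := by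
    rw [Ne, Ideal.span_singleton_eq_bot]
    exact_mod_cast hp.ne_zero
  rw [← Ideal.ramificationIdx'_eq_ramificationIdx (Ideal.span {(p : ℤ)}) P hne]
  have h0 := Ideal.IsDedekindDomain.ramificationIdx'_ne_zero_of_liesOver (R := ℤ) P hne
  have hxP : x ∈ P := hP.mem_of_pow_mem 3 (by rw [hx]; exact hpP)
  have h1 : (Ideal.span {(p : ℤ)}).map (algebraMap ℤ (𝓞 F)) ≤ P ^ 2 := by
    rw [Ideal.map_span, Set.image_singleton, Ideal.span_singleton_le_iff_mem]
    have : algebraMap ℤ (𝓞 F) (p : ℤ) = x ^ 2 * x := by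
      rw [← pow_succ, hx]
      simp
    rw [this]
    exact (P ^ 2).mul_mem_right _ (Ideal.pow_mem_pow hxP 2)
  have h2 := (Ideal.ramificationIdx'_ne_one_iff (h1.trans (Ideal.pow_le_self two_ne_zero))).2 h1
  omega

end

end Q155.EB
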